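import Pool.Agent.Lib.MP_dc1b93_an.Step

/-!
The density step.
-/

set_option autoImplicit false

namespace Pool.MP_dc1b93_an

open Polynomial Filter Topology

noncomputable section

variable {X : Type*} [NormedAddCommGroup X] [NormedSpace ℂ X]

theorem Pr_Pr {L M : ℕ} {v : ℕ → X} {w : ℕ → X →L[ℂ] ℂ} (h : IsFrame M v w) (hLM : L ≤ M)
    (x : X) : Pr M v w (Pr L v w x) = Pr L v w x := by
  have h1 : Pr L v w x = ∑ i ∈ Finset.range L, w i x • v i := rfl
  rw [h1, Pr_sum]
  refine Finset.sum_congr rfl fun i hi => ?_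
  rw [Finset.mem_range] at hi
  rw [Pr_smul, Pr_v h i (by omega)]

theorem norm_N0_sub_le {K P : ℕ} (hK : 1 ≤ K) (hKP : K ≤ P) {v v' : ℕ → X}
    {w w' : ℕ → X →L[ℂ] ℂ} (hag : ∀ i < K, v' i = v i ∧ w' i = w i) {δ : ℝ}
    (hsmall : ∀ j, K ≤ j → j < 2 * P → ‖v' j‖ < δ ∧ ∀ i < j, ‖w' i‖ * ‖v' j‖ < δ) :
    ‖N0 P v' w' - Nop K v w‖ ≤ 2 * P * δ := by
  have hterm : ∀ i, K ≤ i + 1 → i + 1 < 2 * P → ‖(w' i).smulRight (v' (i + 1))‖ ≤ δ := by
    intro i h1 h2
    rw [ContinuousLinearMap.norm_smulRight_apply]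
    exact ((hsmall (i + 1) h1 h2).2 i (by omega)).le
  have h1 : N0 P v' w' - Nop K v w
      = ∑ i ∈ Finset.range (P - K), (w' (K - 1 + i)).smulRight (v' (K - 1 + i + 1))
        + ∑ i ∈ Finset.range (P - 1), (w' (P + i)).smulRight (v' (P + i + 1)) := by
    unfold N0 Nop
    rw [Finset.sum_add_distrib]
    have h2 : ∑ i ∈ Finset.range (P - 1), (w' i).smulRight (v' (i + 1))
        = ∑ i ∈ Finset.range (K - 1), (w i).smulRight (v (i + 1))
          + ∑ i ∈ Finset.range (P - K), (w' (K - 1 + i)).smulRight (v' (K - 1 + i + 1)) := by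
      rw [show P - 1 = (K - 1) + (P - K) by omega, Finset.sum_range_add]
      congr 1
      refine Finset.sum_congr rfl fun i hi => ?_
      rw [Finset.mem_range] at hi
      rw [(hag i (by omega)).2, (hag (i + 1) (by omega)).1]
    rw [h2]
    abel
  rw [h1]
  refine le_trans (norm_add_le _ _) ?_
  have h3 : ‖∑ i ∈ Finset.range (P - K), (w' (K - 1 + i)).smulRight (v' (K - 1 + i + 1))‖
      ≤ (P - K : ℕ) * δ := by
    refine le_trans (norm_sum_le_of_le (f := fun i => (w' (K - 1 + i)).smulRight (v' (K - 1 + i + 1)))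
      (Finset.range (P - K)) (n := fun _ => δ) ?_) ?_
    · intro i hi
      rw [Finset.mem_range] at hi
      exact hterm _ (by omega) (by omega)
    · simp
  have h4 : ‖∑ i ∈ Finset.range (P - 1), (w' (P + i)).smulRight (v' (P + i + 1))‖
      ≤ (P - 1 : ℕ) * δ := by
    refine le_trans (norm_sum_le_of_le (f := fun i => (w' (P + i)).smulRight (v' (P + i + 1)))
      (Finset.range (P - 1)) (n := fun _ => δ) ?_) ?_
    · intro i hi
      rw [Finset.mem_range] at hi
      exact hterm _ (by omega) (by omega)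
    · simp
  have hδ : 0 ≤ δ := by
    rcases Nat.lt_or_ge K (2 * P) with h | h
    · exact le_trans (norm_nonneg _) (hsmall K le_rfl h).1.le
    · omega
  have h5 : ((P - K : ℕ) : ℝ) ≤ P := by exact_mod_cast Nat.sub_le _ _
  have h6 : ((P - 1 : ℕ) : ℝ) ≤ P := by exact_mod_cast Nat.sub_le _ _
  nlinarith

theorem dense_step [CompleteSpace X] (hX : ¬ FiniteDimensional ℂ X) (e : X)
    (s : (X →L[ℂ] X) × (X →L[ℂ] X →L[ℂ] ℂ)) (hs : s ∈ SS e) (y : X) (ε : ℝ) (hε : 0 < ε) :
    ∃ s' ∈ SS e, dist s' s < ε ∧ ∃ n : ℕ, ‖((NormedSpace.exp s'.1) ^ n) e - y‖ < ε := by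
  obtain ⟨K, v, w, m, hK, hv0, hfr, hm, rfl⟩ := hs
  set P : ℕ := 2 * K with hP
  set δ : ℝ := ε / (2 * P + 2) with hδ
  have hP0 : (0 : ℝ) ≤ P := Nat.cast_nonneg _
  have hδ0 : 0 < δ := div_pos hε (by linarith)
  have hδε : (2 * P + 1) * δ < ε := by
    rw [hδ, ← mul_div_assoc, div_lt_iff₀ (by linarith)]
    nlinarith
  obtain ⟨v', w', hfr', hag, hsmall, hy⟩ :=
    frame_extend_to hX hfr y δ hδ0 (2 * P) (by omega)
  set u₀ : X := y + v' P with hu
  have hPy : Pr (2 * P) v' w' y = y := by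
    conv_lhs => rw [hy]
    rw [Pr_Pr hfr' (by omega)]
    exact hy.symm
  have hu0 : Pr (2 * P) v' w' u₀ = u₀ := by
    rw [hu, Pr_add, hPy, Pr_v hfr' P (by omega)]
  have hu1 : ∀ i < P, w' (P + i) u₀ = if i = 0 then 1 else 0 := by
    intro i hi
    have h1 : w' (P + i) y = 0 := by
      rw [hy]
      unfold Pr
      rw [map_sum]
      refine Finset.sum_eq_zero fun j hj => ?_
      rw [Finset.mem_range] at hj
      rw [map_smul, hfr' (P + i) (by omega) j (by omega), if_neg (by omega), smul_zero]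
    rw [hu, map_add, h1, zero_add, hfr' (P + i) (by omega) P (by omega)]
    by_cases hi0 : i = 0
    · rw [if_pos hi0, if_pos (by omega)]
    · rw [if_neg hi0, if_neg (by omega)]
  have hmP : ∀ l, P ≤ l → m l = 0 := fun l hl => hm l (by omega)
  obtain ⟨s', hs'1, hs'2⟩ := two_block P (by omega) v' (Uu P v' w' u₀) (Vs P v' w' u₀)
    (fun i => w' (P + i)) (bi_step hfr' u₀ hu1) K (by omega) (mm P v' w' m u₀)
    (fun c _ l hl => mm_zero hfr' m hm u₀ c l hl)
  rw [← N0_two_block hfr' (by omega) u₀ hu0 hu1,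
    ← Bop_two_block hfr' (by omega) m hmP u₀ hu0 hu1] at hs'2
  have hB : Bop P m w' = Bop K m w := by
    rw [← Bop_extend (show K ≤ P by omega) hm]
    unfold Bop
    refine Finset.sum_congr rfl fun i hi => Finset.sum_congr rfl fun j hj => ?_
    rw [Finset.mem_range] at hi hj
    rw [(hag i hi).2, (hag j hj).2]
  have hev := ((Metric.tendsto_nhds (α := (X →L[ℂ] X) × (X →L[ℂ] X →L[ℂ] ℂ)) (u := s') (f := atTop)
    (a := (N0 P v' w', Bop P m w'))).mp hs'2) δ hδ0
  obtain ⟨n, hn1, hn2⟩ := (hev.and (eventually_ge_atTop 1)).exists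
  have hv0' : v' 0 = e := by rw [(hag 0 (by omega)).1, hv0]
  obtain ⟨g1, g2⟩ := hs'1 n hn2
  rw [hv0'] at g1 g2
  refine ⟨s' n, g1, ?_, n, ?_⟩
  · have h1 : dist (N0 P v' w', Bop P m w') (Nop K v w, Bop K m w) ≤ 2 * P * δ := by
      rw [Prod.dist_eq, hB, dist_self, dist_eq_norm]
      exact max_le (norm_N0_sub_le hK (by omega) hag hsmall) (by positivity)
    calc dist (s' n) (Nop K v w, Bop K m w)
        ≤ dist (s' n) (N0 P v' w', Bop P m w')
          + dist (N0 P v' w', Bop P m w') (Nop K v w, Bop K m w) := dist_triangle _ _ _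
      _ < δ + 2 * P * δ := by linarith
      _ = (2 * P + 1) * δ := by ring
      _ < ε := hδε
  · rw [g2]
    show ‖((N0 P v' w') ^ 0) u₀ - y‖ < ε
    rw [pow_zero, one_apply_eq_self, hu, add_sub_cancel_left]
    have h1 := (hsmall P (by omega) (by omega)).1
    nlinarith

end

end Pool.MP_dc1b93_an
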