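import Pool.Agent.Lib.MP_dc1b93_an.Main

/-!
Properties of `T = exp N`.
-/

set_option autoImplicit false

namespace Pool.MP_dc1b93_an

open Filter Topology

noncomputable section

variable {X : Type*} [NormedAddCommGroup X] [NormedSpace ℂ X] [CompleteSpace X]

theorem exp_sub_one (N : X →L[ℂ] X) :
    ∃ φ : X →L[ℂ] X, NormedSpace.exp N - 1 = N * φ ∧ Commute N φ := by
  have hterm : ∀ k : ℕ, ‖(((k + 1).factorial : ℂ)⁻¹) • N ^ k‖
      ≤ ‖((k.factorial : ℂ)⁻¹) • N ^ k‖ := by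
    intro k
    rw [norm_smul, norm_smul]
    refine mul_le_mul_of_nonneg_right ?_ (norm_nonneg _)
    rw [norm_inv, norm_inv, Complex.norm_natCast, Complex.norm_natCast]
    refine inv_anti₀ (by exact_mod_cast k.factorial_pos) ?_
    exact_mod_cast Nat.factorial_le (Nat.le_succ k)
  have hsum : Summable fun k : ℕ => (((k + 1).factorial : ℂ)⁻¹) • N ^ k :=
    Summable.of_norm_bounded (NormedSpace.norm_expSeries_summable' N) hterm
  obtain ⟨φ, hφ⟩ := hsum
  refine ⟨φ, ?_, ?_⟩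
  · have h1 := NormedSpace.exp_series_hasSum_exp' (𝕂 := ℂ) N
    have h2 := (hasSum_nat_add_iff' 1).mpr h1
    simp only [Finset.range_one, Finset.sum_singleton, Nat.factorial_zero, Nat.cast_one, inv_one,
      pow_zero, one_smul] at h2
    have h3 := hφ.mul_left N
    refine h2.unique ?_
    refine Eq.mp ?_ h3
    congr 1
    funext k
    rw [mul_smul_comm, ← pow_succ']
  · have h3 := hφ.mul_left N
    have h4 := hφ.mul_right N
    refine h3.unique ?_
    refine Eq.mp ?_ h4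
    congr 1
    funext k
    rw [mul_smul_comm, smul_mul_assoc, ← pow_succ', ← pow_succ]

theorem spectrum_exp [Nontrivial X] (N : X →L[ℂ] X)
    (hN : ∀ k : ℕ, ∃ l : ℕ, 1 ≤ l ∧ ‖N ^ l‖ < (1 / ((k : ℝ) + 1)) ^ l) :
    spectrum ℂ (NormedSpace.exp N) = {1} := by
  obtain ⟨φ, h1, h2⟩ := exp_sub_one N
  have hzero : ∀ μ ∈ spectrum ℂ (NormedSpace.exp N - 1), μ = 0 := by
    intro μ hμ
    have hle : ∀ k : ℕ, ‖μ‖ ≤ ‖φ‖ / ((k : ℝ) + 1) := by
      intro k
      obtain ⟨l, hl, hlN⟩ := hN k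
      have h3 : μ ^ l ∈ spectrum ℂ ((NormedSpace.exp N - 1) ^ l) :=
        spectrum.pow_mem_pow _ l hμ
      have h4 := spectrum.norm_le_norm_of_mem h3
      rw [norm_pow, h1, h2.mul_pow] at h4
      have h5 : ‖N ^ l * φ ^ l‖ ≤ (‖φ‖ / ((k : ℝ) + 1)) ^ l := by
        calc ‖N ^ l * φ ^ l‖ ≤ ‖N ^ l‖ * ‖φ ^ l‖ := norm_mul_le _ _
          _ ≤ (1 / ((k : ℝ) + 1)) ^ l * ‖φ‖ ^ l :=
            mul_le_mul hlN.le (norm_pow_le _ _) (norm_nonneg _) (by positivity)
          _ = (‖φ‖ / ((k : ℝ) + 1)) ^ l := by rw [← mul_pow]; congr 1; ring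
      exact le_of_pow_le_pow_left₀ (by omega) (by positivity) (h4.trans h5)
    have hlim : Tendsto (fun k : ℕ => ‖φ‖ / ((k : ℝ) + 1)) atTop (𝓝 0) := by
      have h0 := (tendsto_one_div_add_atTop_nhds_zero_nat (𝕜 := ℝ)).const_mul ‖φ‖
      rw [mul_zero] at h0
      refine h0.congr fun k => ?_
      ring
    have h6 : ‖μ‖ ≤ 0 := ge_of_tendsto' hlim hle
    exact norm_le_zero_iff.mp h6
  have hsub : ∀ μ ∈ spectrum ℂ (NormedSpace.exp N), μ = 1 := by
    intro μ hμ
    have h3 : μ - 1 ∈ spectrum ℂ (NormedSpace.exp N - 1) := by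
      have h4 := spectrum.sub_singleton_eq (NormedSpace.exp N) (1 : ℂ)
      rw [map_one] at h4
      rw [← h4]
      exact Set.sub_mem_sub hμ rfl
    exact sub_eq_zero.mp (hzero _ h3)
  obtain ⟨μ, hμ⟩ := spectrum.nonempty (NormedSpace.exp N)
  refine Set.eq_singleton_iff_unique_mem.mpr ⟨?_, hsub⟩
  rw [← hsub μ hμ]; exact hμ

theorem B_exp_symm (N : X →L[ℂ] X) (B : X →L[ℂ] X →L[ℂ] ℂ)
    (hNs : ∀ x y, B (N x) y = B x (N y)) (x y : X) :
    B (NormedSpace.exp N x) y = B x (NormedSpace.exp N y) := by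
  have hpow : ∀ k : ℕ, ∀ x y, B ((N ^ k) x) y = B x ((N ^ k) y) := by
    intro k
    induction k with
    | zero => intro x y; simp
    | succ k ih =>
      intro x y
      rw [pow_succ', mul_apply_eq_comp, hNs, ih, ← mul_apply_eq_comp, ← pow_succ, pow_succ']
  have h1 := NormedSpace.exp_series_hasSum_exp' (𝕂 := ℂ) N
  have hx := ((ContinuousLinearMap.apply ℂ X) x).hasSum h1
  have hx2 := (B.flip y).hasSum hx
  have hy := ((ContinuousLinearMap.apply ℂ X) y).hasSum h1
  have hy2 := (B x).hasSum hy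
  refine hx2.unique ?_
  refine Eq.mp ?_ hy2
  congr 1
  funext k
  simp only [ContinuousLinearMap.apply_apply, map_smul, ContinuousLinearMap.flip_apply]
  rw [hpow]

omit [CompleteSpace X] in
theorem not_cyclic (T : X →L[ℂ] X) (B : X →L[ℂ] X →L[ℂ] ℂ)
    (hs : ∀ x y, B x y = B y x) (hT : ∀ x y, B (T x) y = B x (T y))
    (e : X) (he : B e e ≠ 0) :
    ¬ ∃ z : X × X, Dense (Submodule.span ℂ
      (Set.range fun n : ℕ => ((T.prodMap T) ^ n) z) : Set (X × X)) := by
  rintro ⟨z, hz⟩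
  have hTn : ∀ n : ℕ, ∀ x y, B ((T ^ n) x) y = B x ((T ^ n) y) := by
    intro n
    induction n with
    | zero => intro x y; simp
    | succ k ih =>
      intro x y
      rw [pow_succ', mul_apply_eq_comp, hT, ih, ← mul_apply_eq_comp, ← pow_succ, pow_succ']
  have hpr : ∀ n : ℕ, ((T.prodMap T) ^ n) z = ((T ^ n) z.1, (T ^ n) z.2) := by
    intro n
    induction n with
    | zero => simp
    | succ k ih =>
      rw [pow_succ', mul_apply_eq_comp, ih, pow_succ', mul_apply_eq_comp, mul_apply_eq_comp]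
      rfl
  have hvan : ∀ Λ : X × X →L[ℂ] ℂ, (∀ n : ℕ, Λ ((T ^ n) z.1, (T ^ n) z.2) = 0) → ∀ u, Λ u = 0 := by
    intro Λ hΛ
    have hcl : IsClosed {u : X × X | Λ u = 0} := isClosed_eq Λ.continuous continuous_const
    have hsub : (Submodule.span ℂ (Set.range fun n : ℕ => ((T.prodMap T) ^ n) z) : Set (X × X))
        ⊆ {u : X × X | Λ u = 0} := by
      intro u hu
      have : Submodule.span ℂ (Set.range fun n : ℕ => ((T.prodMap T) ^ n) z)
          ≤ LinearMap.ker (Λ : X × X →ₗ[ℂ] ℂ) := by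
        rw [Submodule.span_le]
        rintro _ ⟨n, rfl⟩
        show Λ (((T.prodMap T) ^ n) z) = 0
        rw [hpr]
        exact hΛ n
      exact this hu
    intro u
    have := hcl.closure_subset_iff.mpr hsub (hz u)
    exact this
  have h1 := hvan ((B.flip z.2).comp (ContinuousLinearMap.fst ℂ X X)
    - (B.flip z.1).comp (ContinuousLinearMap.snd ℂ X X)) (by
      intro n
      show B ((T ^ n) z.1) z.2 - B ((T ^ n) z.2) z.1 = 0
      rw [hTn, hs, sub_self])
  have h2 : ∀ u, B u z.1 = 0 := by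
    intro u
    have : B 0 z.2 - B u z.1 = 0 := h1 (0, u)
    rw [map_zero, zero_apply, zero_sub, neg_eq_zero] at this
    exact this
  have h3 : ∀ u x, B u x = 0 := by
    intro u x
    have := hvan ((B u).comp (ContinuousLinearMap.fst ℂ X X)) (by
      intro n
      show B u ((T ^ n) z.1) = 0
      rw [← hTn, h2]) (x, 0)
    exact this
  exact he (h3 e e)

end

end Pool.MP_dc1b93_an
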