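import Pool.Agent.Lib.MP_dc1b93_an.TwoBlock

/-!
Extension of frames and the density step.
-/

set_option autoImplicit false

namespace Pool.MP_dc1b93_an

open Polynomial Filter Topology

noncomputable section

variable {X : Type*} [NormedAddCommGroup X] [NormedSpace ℂ X]

/-- The finite rank projection attached to a frame. -/
def Pr (K : ℕ) (v : ℕ → X) (w : ℕ → X →L[ℂ] ℂ) (x : X) : X :=
  ∑ i ∈ Finset.range K, w i x • v i

theorem IsFrame.w_Pr {K : ℕ} {v : ℕ → X} {w : ℕ → X →L[ℂ] ℂ} (h : IsFrame K v w) (x : X)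
    (i : ℕ) (hi : i < K) : w i (Pr K v w x) = w i x := by
  unfold Pr
  rw [map_sum, Finset.sum_eq_single i]
  · rw [map_smul, h i hi i hi]; simp
  · intro j hj hji
    rw [map_smul, h i hi j (by simpa using hj), if_neg (Ne.symm hji), smul_zero]
  · intro hi'; exact absurd (Finset.mem_range.mpr hi) hi'

theorem exists_ker_vector (hX : ¬ FiniteDimensional ℂ X) {K : ℕ} {v : ℕ → X}
    {w : ℕ → X →L[ℂ] ℂ} (h : IsFrame K v w) (x : X) :
    ∃ y : X, y ≠ 0 ∧ (∀ i < K, w i y = 0) ∧ (x - Pr K v w x = y ∨ x - Pr K v w x = 0) := by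
  have hker : ∀ z : X, ∀ i < K, w i (z - Pr K v w z) = 0 := by
    intro z i hi
    rw [map_sub, h.w_Pr z i hi, sub_self]
  by_cases hx : x - Pr K v w x = 0
  · have hz : ∃ z : X, z - Pr K v w z ≠ 0 := by
      by_contra hcon
      push Not at hcon
      apply hX
      have htop : (⊤ : Submodule ℂ X) = Submodule.span ℂ (v '' (Finset.range K : Set ℕ)) := by
        rw [eq_comm, eq_top_iff]
        intro z _
        have hz := hcon z
        rw [sub_eq_zero] at hz
        rw [hz]
        unfold Pr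
        refine Submodule.sum_mem _ fun i hi => Submodule.smul_mem _ _ (Submodule.subset_span ?_)
        exact ⟨i, hi, rfl⟩
      refine ⟨?_⟩
      rw [htop]
      exact Submodule.fg_span ((Finset.range K).finite_toSet.image v)
    obtain ⟨z, hz⟩ := hz
    exact ⟨z - Pr K v w z, hz, hker z, Or.inr hx⟩
  · exact ⟨x - Pr K v w x, hx, hker x, Or.inl rfl⟩

theorem frame_extend (hX : ¬ FiniteDimensional ℂ X) {K : ℕ} {v : ℕ → X}
    {w : ℕ → X →L[ℂ] ℂ} (h : IsFrame K v w) (x : X) (δ : ℝ) (hδ : 0 < δ) :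
    ∃ (v' : ℕ → X) (w' : ℕ → X →L[ℂ] ℂ), IsFrame (K + 1) v' w' ∧
      (∀ i < K, v' i = v i ∧ w' i = w i) ∧ ‖v' K‖ < δ ∧ (∀ i < K, ‖w' i‖ * ‖v' K‖ < δ) ∧
      x = Pr (K + 1) v' w' x := by
  obtain ⟨y, hy, hwy, hxy⟩ := exists_ker_vector hX h x
  obtain ⟨z₀, hz₀⟩ := SeparatingDual.exists_eq_one (R := ℂ) hy
  set z : X →L[ℂ] ℂ := z₀ - ∑ i ∈ Finset.range K, z₀ (v i) • w i with hz
  have hzv : ∀ j < K, z (v j) = 0 := by
    intro j hj
    rw [hz]
    simp only [sub_apply, sum_apply, smul_apply]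
    rw [Finset.sum_eq_single j]
    · rw [h j hj j hj]; simp
    · intro i hi hij
      rw [h i (by simpa using hi) j hj, if_neg hij, smul_zero]
    · intro hj'; exact absurd (Finset.mem_range.mpr hj) hj'
  have hzx : ∀ x : X, z x = z₀ (x - Pr K v w x) := by
    intro x
    rw [hz]
    simp only [sub_apply, sum_apply, smul_apply, map_sub]
    congr 1
    unfold Pr
    rw [map_sum]
    refine Finset.sum_congr rfl fun i _ => ?_
    rw [map_smul, smul_eq_mul, smul_eq_mul, mul_comm]
  have hPy : Pr K v w y = 0 := by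
    unfold Pr
    refine Finset.sum_eq_zero fun i hi => ?_
    rw [hwy i (by simpa using hi), zero_smul]
  have hzy : z y = 1 := by rw [hzx, hPy, sub_zero, hz₀]
  set C : ℝ := ‖y‖ * (1 + ∑ i ∈ Finset.range K, ‖w i‖) with hC
  have hS : 0 ≤ ∑ i ∈ Finset.range K, ‖w i‖ := Finset.sum_nonneg fun i _ => norm_nonneg _
  have hC0 : 0 ≤ C := mul_nonneg (norm_nonneg _) (by linarith)
  set η : ℝ := δ / (C + 1) with hη
  have hη0 : 0 < η := div_pos hδ (by linarith)
  have hηC : η * C < δ := by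
    rw [hη, div_mul_eq_mul_div, div_lt_iff₀ (by linarith)]
    nlinarith
  have hηc : (η : ℂ) ≠ 0 := by exact_mod_cast hη0.ne'
  have hnorm : ‖(η : ℂ) • y‖ = η * ‖y‖ := by
    rw [norm_smul, Complex.norm_real, Real.norm_of_nonneg hη0.le]
  refine ⟨Function.update v K ((η : ℂ) • y), Function.update w K ((η : ℂ)⁻¹ • z), ?_, ?_, ?_, ?_, ?_⟩
  · intro i hi j hj
    rcases Nat.lt_succ_iff_lt_or_eq.mp hi with hi' | rfl
    · rw [Function.update_of_ne (by omega)]
      rcases Nat.lt_succ_iff_lt_or_eq.mp hj with hj' | rfl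
      · rw [Function.update_of_ne (by omega)]
        exact h i hi' j hj'
      · rw [Function.update_self, map_smul, hwy i hi', smul_zero, if_neg (by omega)]
    · rw [Function.update_self]
      rcases Nat.lt_succ_iff_lt_or_eq.mp hj with hj' | rfl
      · rw [Function.update_of_ne (by omega), smul_apply, hzv j hj', smul_zero, if_neg (by omega)]
      · rw [Function.update_self, smul_apply, map_smul, hzy, if_pos rfl]
        simp [hηc]
  · intro i hi
    rw [Function.update_of_ne (by omega), Function.update_of_ne (by omega)]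
    exact ⟨rfl, rfl⟩
  · rw [Function.update_self, hnorm]
    refine lt_of_le_of_lt ?_ hηC
    refine mul_le_mul_of_nonneg_left ?_ hη0.le
    rw [hC]
    nlinarith [norm_nonneg y]
  · intro i hi
    rw [Function.update_of_ne (by omega), Function.update_self, hnorm]
    refine lt_of_le_of_lt ?_ hηC
    have h1 : ‖w i‖ ≤ ∑ i ∈ Finset.range K, ‖w i‖ :=
      Finset.single_le_sum (f := fun i => ‖w i‖) (fun i _ => norm_nonneg _) (Finset.mem_range.mpr hi)
    have h2 : ‖w i‖ * (η * ‖y‖) = η * (‖y‖ * ‖w i‖) := by ring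
    rw [h2, hC]
    refine mul_le_mul_of_nonneg_left ?_ hη0.le
    refine mul_le_mul_of_nonneg_left ?_ (norm_nonneg y)
    linarith
  · have h1 : Pr (K + 1) (Function.update v K ((η : ℂ) • y)) (Function.update w K ((η : ℂ)⁻¹ • z)) x
        = Pr K v w x + z x • y := by
      unfold Pr
      rw [Finset.sum_range_succ, Function.update_self, Function.update_self]
      congr 1
      · refine Finset.sum_congr rfl fun i hi => ?_
        rw [Finset.mem_range] at hi
        rw [Function.update_of_ne (by omega), Function.update_of_ne (by omega)]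
      · rw [smul_apply, smul_smul, smul_eq_mul, mul_comm _ (z x), mul_assoc,
          inv_mul_cancel₀ hηc, mul_one]
    rw [h1, hzx]
    rcases hxy with hxy | hxy
    · rw [hxy, hz₀, one_smul, ← hxy]; abel
    · rw [hxy, map_zero, zero_smul, add_zero]
      exact sub_eq_zero.mp hxy

theorem frame_extend_to (hX : ¬ FiniteDimensional ℂ X) {K : ℕ} {v : ℕ → X}
    {w : ℕ → X →L[ℂ] ℂ} (h : IsFrame K v w) (x : X) (δ : ℝ) (hδ : 0 < δ) (L : ℕ)
    (hL : K + 1 ≤ L) :
    ∃ (v' : ℕ → X) (w' : ℕ → X →L[ℂ] ℂ), IsFrame L v' w' ∧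
      (∀ i < K, v' i = v i ∧ w' i = w i) ∧
      (∀ j, K ≤ j → j < L → ‖v' j‖ < δ ∧ ∀ i < j, ‖w' i‖ * ‖v' j‖ < δ) ∧
      x = Pr (K + 1) v' w' x := by
  induction L, hL using Nat.le_induction with
  | base =>
    obtain ⟨v', w', h1, h2, h3, h4, h5⟩ := frame_extend hX h x δ hδ
    refine ⟨v', w', h1, h2, ?_, h5⟩
    intro j hj1 hj2
    obtain rfl : j = K := by omega
    exact ⟨h3, h4⟩
  | succ L hL ih =>
    obtain ⟨v', w', h1, h2, h3, h5⟩ := ih
    obtain ⟨v'', w'', g1, g2, g3, g4, -⟩ := frame_extend hX h1 x δ hδ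
    refine ⟨v'', w'', g1, ?_, ?_, ?_⟩
    · intro i hi
      rw [(g2 i (by omega)).1, (g2 i (by omega)).2]
      exact h2 i hi
    · intro j hj1 hj2
      rcases Nat.lt_succ_iff_lt_or_eq.mp hj2 with hj' | rfl
      · obtain ⟨q1, q2⟩ := h3 j hj1 hj'
        refine ⟨by rw [(g2 j hj').1]; exact q1, ?_⟩
        intro i hi
        rw [(g2 j hj').1, (g2 i (by omega)).2]
        exact q2 i hi
      · exact ⟨g3, g4⟩
    · refine h5.trans ?_
      unfold Pr
      refine Finset.sum_congr rfl fun i hi => ?_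
      rw [Finset.mem_range] at hi
      rw [(g2 i (by omega)).1, (g2 i (by omega)).2]

/-- The two-block operator on a frame of size `2 P`. -/
def N0 (P : ℕ) (v : ℕ → X) (w : ℕ → X →L[ℂ] ℂ) : X →L[ℂ] X :=
  ∑ i ∈ Finset.range (P - 1), ((w i).smulRight (v (i + 1))
    + (w (P + i)).smulRight (v (P + i + 1)))

theorem N0_apply (P : ℕ) (v : ℕ → X) (w : ℕ → X →L[ℂ] ℂ) (x : X) :
    N0 P v w x = ∑ i ∈ Finset.range (P - 1), (w i x • v (i + 1) + w (P + i) x • v (P + i + 1)) := by
  simp [N0]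

theorem w_N0 {P : ℕ} {v : ℕ → X} {w : ℕ → X →L[ℂ] ℂ} (h : IsFrame (2 * P) v w) (x : X)
    (i : ℕ) (hi : i < P) : w i (N0 P v w x) = if i = 0 then 0 else w (i - 1) x := by
  rw [N0_apply, map_sum]
  simp only [map_add, map_smul, smul_eq_mul]
  split_ifs with h0
  · refine Finset.sum_eq_zero fun j hj => ?_
    rw [Finset.mem_range] at hj
    rw [h i (by omega) (j + 1) (by omega), h i (by omega) (P + j + 1) (by omega),
      if_neg (by omega), if_neg (by omega)]
    simp
  · rw [Finset.sum_eq_single (i - 1)]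
    · rw [h i (by omega) (i - 1 + 1) (by omega), h i (by omega) (P + (i - 1) + 1) (by omega),
        if_pos (by omega), if_neg (by omega)]
      simp
    · intro j hj hji
      rw [Finset.mem_range] at hj
      rw [h i (by omega) (j + 1) (by omega), h i (by omega) (P + j + 1) (by omega),
        if_neg (by omega), if_neg (by omega)]
      simp
    · intro hh; exact absurd (Finset.mem_range.mpr (by omega)) hh

theorem w_N0' {P : ℕ} {v : ℕ → X} {w : ℕ → X →L[ℂ] ℂ} (h : IsFrame (2 * P) v w) (x : X)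
    (i : ℕ) (hi : i < P) :
    w (P + i) (N0 P v w x) = if i = 0 then 0 else w (P + (i - 1)) x := by
  rw [N0_apply, map_sum]
  simp only [map_add, map_smul, smul_eq_mul]
  split_ifs with h0
  · refine Finset.sum_eq_zero fun j hj => ?_
    rw [Finset.mem_range] at hj
    rw [h (P + i) (by omega) (j + 1) (by omega), h (P + i) (by omega) (P + j + 1) (by omega),
      if_neg (by omega), if_neg (by omega)]
    simp
  · rw [Finset.sum_eq_single (i - 1)]
    · rw [h (P + i) (by omega) (i - 1 + 1) (by omega),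
        h (P + i) (by omega) (P + (i - 1) + 1) (by omega),
        if_neg (by omega), if_pos (by omega)]
      simp
    · intro j hj hji
      rw [Finset.mem_range] at hj
      rw [h (P + i) (by omega) (j + 1) (by omega), h (P + i) (by omega) (P + j + 1) (by omega),
        if_neg (by omega), if_neg (by omega)]
      simp
    · intro hh; exact absurd (Finset.mem_range.mpr (by omega)) hh

theorem w_N0_pow {P : ℕ} {v : ℕ → X} {w : ℕ → X →L[ℂ] ℂ} (h : IsFrame (2 * P) v w) (x : X)
    (j i : ℕ) (hi : i < P) : w i (((N0 P v w) ^ j) x) = if j ≤ i then w (i - j) x else 0 := by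
  induction j generalizing i with
  | zero => simp
  | succ j ih =>
    rw [pow_succ', mul_apply_eq_comp, w_N0 h _ i hi]
    by_cases h0 : i = 0
    · rw [if_pos h0, if_neg (by omega)]
    · rw [if_neg h0, ih (i - 1) (by omega)]
      by_cases hj : j + 1 ≤ i
      · rw [if_pos (by omega), if_pos hj]; congr 2; omega
      · rw [if_neg (by omega), if_neg hj]

theorem w_N0_pow' {P : ℕ} {v : ℕ → X} {w : ℕ → X →L[ℂ] ℂ} (h : IsFrame (2 * P) v w) (x : X)
    (j i : ℕ) (hi : i < P) :
    w (P + i) (((N0 P v w) ^ j) x) = if j ≤ i then w (P + (i - j)) x else 0 := by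
  induction j generalizing i with
  | zero => simp
  | succ j ih =>
    rw [pow_succ', mul_apply_eq_comp, w_N0' h _ i hi]
    by_cases h0 : i = 0
    · rw [if_pos h0, if_neg (by omega)]
    · rw [if_neg h0, ih (i - 1) (by omega)]
      by_cases hj : j + 1 ≤ i
      · rw [if_pos (by omega), if_pos hj]; congr 2; omega
      · rw [if_neg (by omega), if_neg hj]

theorem Pr_split (P : ℕ) (v : ℕ → X) (w : ℕ → X →L[ℂ] ℂ) (x : X) :
    Pr (2 * P) v w x = ∑ i ∈ Finset.range P, w i x • v i
      + ∑ i ∈ Finset.range P, w (P + i) x • v (P + i) := by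
  unfold Pr
  rw [two_mul, Finset.sum_range_add]

theorem Pr_congr (K : ℕ) (v : ℕ → X) (w : ℕ → X →L[ℂ] ℂ) (x y : X)
    (hxy : ∀ i < K, w i x = w i y) : Pr K v w x = Pr K v w y := by
  unfold Pr
  refine Finset.sum_congr rfl fun i hi => ?_
  rw [hxy i (by simpa using hi)]

theorem Pr_v {K : ℕ} {v : ℕ → X} {w : ℕ → X →L[ℂ] ℂ} (h : IsFrame K v w) (j : ℕ) (hj : j < K) :
    Pr K v w (v j) = v j := by
  unfold Pr
  rw [Finset.sum_eq_single j]
  · rw [h j hj j hj]; simp
  · intro i hi hij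
    rw [h i (by simpa using hi) j hj, if_neg hij, zero_smul]
  · intro hh; exact absurd (Finset.mem_range.mpr hj) hh

theorem Pr_add (K : ℕ) (v : ℕ → X) (w : ℕ → X →L[ℂ] ℂ) (x y : X) :
    Pr K v w (x + y) = Pr K v w x + Pr K v w y := by
  unfold Pr
  rw [← Finset.sum_add_distrib]
  refine Finset.sum_congr rfl fun i _ => ?_
  rw [map_add, add_smul]

theorem Pr_smul (K : ℕ) (v : ℕ → X) (w : ℕ → X →L[ℂ] ℂ) (c : ℂ) (x : X) :
    Pr K v w (c • x) = c • Pr K v w x := by
  unfold Pr
  rw [Finset.smul_sum]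
  refine Finset.sum_congr rfl fun i _ => ?_
  rw [map_smul, smul_assoc]

theorem Pr_sum {ι : Type*} (K : ℕ) (v : ℕ → X) (w : ℕ → X →L[ℂ] ℂ) (s : Finset ι) (f : ι → X) :
    Pr K v w (∑ a ∈ s, f a) = ∑ a ∈ s, Pr K v w (f a) := by
  unfold Pr
  rw [Finset.sum_comm]
  refine Finset.sum_congr rfl fun i _ => ?_
  rw [map_sum, Finset.sum_smul]

theorem Pr_N0 {P : ℕ} {v : ℕ → X} {w : ℕ → X →L[ℂ] ℂ} (h : IsFrame (2 * P) v w) (x : X) :
    Pr (2 * P) v w (N0 P v w x) = N0 P v w x := by
  rw [N0_apply, Pr_sum]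
  refine Finset.sum_congr rfl fun i hi => ?_
  rw [Finset.mem_range] at hi
  rw [Pr_add, Pr_smul, Pr_smul, Pr_v h (i + 1) (by omega), Pr_v h (P + i + 1) (by omega)]

theorem N0_Pr {P : ℕ} {v : ℕ → X} {w : ℕ → X →L[ℂ] ℂ} (h : IsFrame (2 * P) v w) (x : X) :
    N0 P v w (Pr (2 * P) v w x) = N0 P v w x := by
  rw [N0_apply, N0_apply]
  refine Finset.sum_congr rfl fun i hi => ?_
  rw [Finset.mem_range] at hi
  rw [h.w_Pr x i (by omega), h.w_Pr x (P + i) (by omega)]

theorem eq_zero_of_Pr {K : ℕ} {v : ℕ → X} {w : ℕ → X →L[ℂ] ℂ} (x : X) (hx : Pr K v w x = x)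
    (h0 : ∀ i < K, w i x = 0) : x = 0 := by
  rw [← hx]
  unfold Pr
  refine Finset.sum_eq_zero fun i hi => ?_
  rw [h0 i (by simpa using hi), zero_smul]

theorem N0_pow_v {P : ℕ} {v : ℕ → X} {w : ℕ → X →L[ℂ] ℂ} (h : IsFrame (2 * P) v w) (hP : 1 ≤ P)
    (j : ℕ) : ((N0 P v w) ^ j) (v 0) = if j < P then v j else 0 := by
  have hPr : Pr (2 * P) v w (((N0 P v w) ^ j) (v 0)) = ((N0 P v w) ^ j) (v 0) := by
    cases j with
    | zero => simpa using Pr_v h 0 (by omega)
    | succ j => rw [pow_succ', mul_apply_eq_comp, Pr_N0 h]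
  rw [← hPr, Pr_split]
  have h1 : ∑ i ∈ Finset.range P, w (P + i) (((N0 P v w) ^ j) (v 0)) • v (P + i) = 0 := by
    refine Finset.sum_eq_zero fun i hi => ?_
    rw [Finset.mem_range] at hi
    rw [w_N0_pow' h _ j i hi]
    split_ifs
    · rw [h _ (by omega) 0 (by omega), if_neg (by omega), zero_smul]
    · rw [zero_smul]
  rw [h1, add_zero]
  split_ifs with hj
  · rw [Finset.sum_eq_single j]
    · rw [w_N0_pow h _ j j hj, if_pos le_rfl, Nat.sub_self, h 0 (by omega) 0 (by omega)]; simp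
    · intro i hi hij
      rw [Finset.mem_range] at hi
      rw [w_N0_pow h _ j i hi]
      split_ifs with hji
      · rw [h _ (by omega) 0 (by omega), if_neg (by omega), zero_smul]
      · rw [zero_smul]
    · intro hh; exact absurd (Finset.mem_range.mpr hj) hh
  · refine Finset.sum_eq_zero fun i hi => ?_
    rw [Finset.mem_range] at hi
    rw [w_N0_pow h _ j i hi, if_neg (by omega), zero_smul]

end

end Pool.MP_dc1b93_an
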