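import Mathlib

/-!
Jets of polynomials, Taylor's formula and Hermite interpolation at the nodes `0, n, 2n, …`.
-/

set_option autoImplicit false

namespace Pool.MP_dc1b93_an

open Polynomial Filter Topology

noncomputable section

/-- The `i`-th derivative of `f` at `c`, as a linear functional. -/
def jet (i : ℕ) (c : ℂ) : ℂ[X] →ₗ[ℂ] ℂ :=
  (Polynomial.leval c).comp ((Polynomial.derivative : ℂ[X] →ₗ[ℂ] ℂ[X]) ^ i)

theorem jet_apply (i : ℕ) (c : ℂ) (f : ℂ[X]) : jet i c f = (derivative^[i] f).eval c := by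
  simp [jet, Module.End.pow_apply]

theorem jet_derivative (i : ℕ) (c : ℂ) (f : ℂ[X]) : jet i c (derivative f) = jet (i + 1) c f := by
  rw [jet_apply, jet_apply, Function.iterate_succ_apply]

theorem jet_of_natDegree_lt (i : ℕ) (c : ℂ) (f : ℂ[X]) (h : f.natDegree < i) : jet i c f = 0 := by
  rw [jet_apply, Polynomial.iterate_derivative_eq_zero h, eval_zero]

/-- Taylor coefficients. -/
def tc (b : ℕ) (s : ℂ) (i : ℕ) : ℂ := if b ≤ i then s ^ (i - b) / ((i - b).factorial : ℂ) else 0

theorem tc_zero (b i : ℕ) : tc b 0 i = if b = i then 1 else 0 := by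
  unfold tc
  split_ifs with h1 h2 h2
  · subst h2; simp
  · have : i - b ≠ 0 := by omega
    simp [this]
  · omega
  · rfl

theorem taylor_jet (L : ℕ) (f : ℂ[X]) (hf : f.natDegree < L) (b : ℕ) (s t : ℂ) :
    ∑ i ∈ Finset.range L, tc b s i * jet i t f = jet b (s + t) f := by
  have h1 : ∑ i ∈ Finset.range L, tc b s i * jet i t f
      = ∑ i ∈ Finset.range (b + L), tc b s i * jet i t f := by
    refine Finset.sum_subset (fun i hi => ?_) (fun i _ hi => ?_)
    · simp only [Finset.mem_range] at hi ⊢; omega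
    · simp only [Finset.mem_range, not_lt] at hi
      rw [jet_of_natDegree_lt i t f (by omega), mul_zero]
  rw [h1, Finset.sum_range_add]
  have h2 : ∑ i ∈ Finset.range b, tc b s i * jet i t f = 0 := by
    refine Finset.sum_eq_zero fun i hi => ?_
    simp only [Finset.mem_range] at hi
    rw [tc, if_neg (by omega), zero_mul]
  rw [h2, zero_add]
  have h3 : jet b (s + t) f = (taylor t (derivative^[b] f)).eval s := by
    rw [taylor_eval, jet_apply]
  have hdeg : (taylor t (derivative^[b] f)).natDegree < L := by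
    rw [natDegree_taylor]
    exact lt_of_le_of_lt (le_trans (natDegree_iterate_derivative f b) (Nat.sub_le _ _)) hf
  rw [h3, eval_eq_sum_range' hdeg]
  refine Finset.sum_congr rfl fun k _ => ?_
  have h4 : (derivative^[k] (derivative^[b] f)).eval t
      = (k.factorial : ℂ) * (hasseDeriv k (derivative^[b] f)).eval t := by
    rw [← factorial_smul_hasseDeriv]
    simp
  have h5 : jet (b + k) t f = (derivative^[k] (derivative^[b] f)).eval t := by
    rw [jet_apply, ← Function.iterate_add_apply, add_comm]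
  rw [taylor_coeff, h5, h4, tc, if_pos (by omega), Nat.add_sub_cancel_left]
  have hk : (k.factorial : ℂ) ≠ 0 := by exact_mod_cast k.factorial_ne_zero
  field_simp

/-- The polynomial `x^i / i!`. -/
def ee (i : ℕ) : ℂ[X] := C (1 / (i.factorial : ℂ)) * X ^ i

theorem natDegree_ee (i : ℕ) : (ee i).natDegree ≤ i := natDegree_C_mul_X_pow_le _ _

theorem jet_ee (b : ℕ) (s : ℂ) (i : ℕ) : jet b s (ee i) = tc b s i := by
  have h := taylor_jet (i + 1) (ee i) (Nat.lt_succ_of_le (natDegree_ee i)) b s 0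
  rw [add_zero] at h
  rw [← h]
  have h0 : ∀ k, jet k 0 (ee i) = if k = i then 1 else 0 := by
    intro k
    rw [jet_apply, ee, iterate_derivative_C_mul, iterate_derivative_X_pow_eq_C_mul, eval_mul,
      eval_mul, eval_C, eval_C, eval_pow, eval_X]
    split_ifs with hk
    · subst hk
      have : (k.factorial : ℂ) ≠ 0 := by exact_mod_cast k.factorial_ne_zero
      simp [Nat.descFactorial_self, this]
    · rcases lt_or_gt_of_ne hk with h' | h'
      · have : i - k ≠ 0 := by omega
        simp [this]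
      · rw [Nat.descFactorial_eq_zero_iff_lt.mpr h']; simp
  simp only [h0]
  rw [Finset.sum_eq_single i]
  · simp
  · intro k _ hk; simp [hk]
  · intro hi; simp at hi

/-- Injectivity of the jet map at distinct nodes. -/
theorem eq_zero_of_jets (m L : ℕ) (c : ℕ → ℂ) (hc : ∀ i < m, ∀ j < m, c i = c j → i = j)
    (f : ℂ[X]) (hdeg : f.degree < ((m * L : ℕ) : WithBot ℕ))
    (hj : ∀ k < m, ∀ i < L, jet i (c k) f = 0) : f = 0 := by
  by_contra hf
  have hdeg' : f.natDegree < m * L := (natDegree_lt_iff_degree_lt hf).mpr hdeg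
  have hdvd : ∀ k ∈ Finset.range m, (X - C (c k)) ^ L ∣ f := by
    intro k hk
    rw [Finset.mem_range] at hk
    rcases Nat.eq_zero_or_pos L with rfl | hL
    · simp
    · rw [← le_rootMultiplicity_iff hf]
      have : L - 1 < f.rootMultiplicity (c k) := by
        rw [lt_rootMultiplicity_iff_isRoot_iterate_derivative hf]
        intro i hi
        have := hj k hk i (by omega)
        rwa [jet_apply] at this
      omega
  have hprod : (∏ k ∈ Finset.range m, (X - C (c k)) ^ L) ∣ f := by
    refine Finset.prod_dvd_of_coprime ?_ hdvd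
    intro i hi j hj' hij
    refine IsCoprime.pow ?_
    refine isCoprime_X_sub_C_of_isUnit_sub ?_
    rw [isUnit_iff_ne_zero, sub_ne_zero]
    intro h
    exact hij (hc i (by simpa using hi) j (by simpa using hj') h)
  have hnd : (∏ k ∈ Finset.range m, (X - C (c k)) ^ L).natDegree = m * L := by
    rw [natDegree_prod_of_monic _ _ (fun k _ => (monic_X_sub_C (c k)).pow L)]
    simp
  have := natDegree_le_of_dvd hprod hf
  omega

/-- Hermite interpolation at distinct nodes. -/
theorem exists_of_jets (m L : ℕ) (c : ℕ → ℂ) (hc : ∀ i < m, ∀ j < m, c i = c j → i = j)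
    (t : ℕ → ℕ → ℂ) :
    ∃ f : ℂ[X], f.degree < ((m * L : ℕ) : WithBot ℕ) ∧ ∀ k < m, ∀ i < L, jet i (c k) f = t k i := by
  let Φ : degreeLT ℂ (m * L) →ₗ[ℂ] (Fin m × Fin L → ℂ) :=
    LinearMap.pi fun p => (jet p.2 (c p.1)).comp (degreeLT ℂ (m * L)).subtype
  have hinj : Function.Injective Φ := by
    rw [injective_iff_map_eq_zero]
    intro f hf
    have h0 : (f : ℂ[X]) = 0 := by
      refine eq_zero_of_jets m L c hc _ (mem_degreeLT.mp f.2) ?_
      intro k hk i hi
      have := congrFun hf (⟨k, hk⟩, ⟨i, hi⟩)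
      simpa [Φ] using this
    exact Subtype.ext h0
  have hfr : Module.finrank ℂ (degreeLT ℂ (m * L)) = Module.finrank ℂ (Fin m × Fin L → ℂ) := by
    rw [LinearEquiv.finrank_eq (degreeLTEquiv ℂ (m * L))]
    simp
  have : FiniteDimensional ℂ (degreeLT ℂ (m * L)) :=
    FiniteDimensional.of_injective (degreeLTEquiv ℂ (m * L)).toLinearMap
      (degreeLTEquiv ℂ (m * L)).injective
  have hsurj : Function.Surjective Φ :=
    (LinearMap.injective_iff_surjective_of_finrank_eq_finrank hfr).mp hinj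
  obtain ⟨f, hf⟩ := hsurj fun p => t p.1 p.2
  refine ⟨f, mem_degreeLT.mp f.2, ?_⟩
  intro k hk i hi
  have := congrFun hf (⟨k, hk⟩, ⟨i, hi⟩)
  simpa [Φ] using this

/-- Scaling of jets. -/
theorem jet_scale (a : ℂ) (f : ℂ[X]) (i : ℕ) (t : ℂ) :
    jet i t (f.comp (C a * X)) = a ^ i * jet i (a * t) f := by
  have h : derivative^[i] (f.comp (C a * X)) = C (a ^ i) * (derivative^[i] f).comp (C a * X) := by
    induction i with
    | zero => simp
    | succ n ih =>
      rw [Function.iterate_succ_apply', ih, Function.iterate_succ_apply']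
      rw [derivative_C_mul, derivative_comp]
      simp only [derivative_mul, derivative_C, derivative_X, zero_mul, zero_add, mul_one]
      rw [← mul_assoc, ← C_mul, pow_succ]
  rw [jet_apply, h, jet_apply]
  simp [eval_comp]

theorem degree_scale (a : ℂ) (f : ℂ[X]) (L : ℕ) (hf : f.degree < (L : WithBot ℕ)) :
    (f.comp (C a * X)).degree < (L : WithBot ℕ) := by
  by_cases h0 : f.comp (C a * X) = 0
  · rw [h0, degree_zero]; exact WithBot.bot_lt_coe L
  · by_cases hf0 : f = 0
    · simp [hf0] at h0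
    · rw [← natDegree_lt_iff_degree_lt h0]
      rw [← natDegree_lt_iff_degree_lt hf0] at hf
      refine lt_of_le_of_lt (natDegree_comp_le) ?_
      refine lt_of_le_of_lt (Nat.mul_le_mul_left _ (?_ : _ ≤ 1)) (by simpa using hf)
      simpa using natDegree_C_mul_X_pow_le a 1

/-- Fundamental Hermite polynomials at the nodes `0, n, …, (m-1) n` with multiplicity `L`. -/
theorem exists_fund (m L : ℕ) : ∃ F : ℕ → ℕ → ℕ → ℂ[X],
    (∀ n c b, (F n c b).degree < ((m * L : ℕ) : WithBot ℕ)) ∧
    (∀ n : ℕ, 1 ≤ n → ∀ c < m, ∀ b < L, ∀ c' < m, ∀ i < L,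
      jet i ((c' : ℂ) * n) (F n c b) = if c' = c ∧ i = b then 1 else 0) ∧
    (∀ c < m, ∀ b < L, ∀ c' < m, ∀ i, L ≤ i →
      Tendsto (fun n : ℕ => jet i ((c' : ℂ) * n) (F n c b)) atTop (𝓝 0)) := by
  have hnode : ∀ i < m, ∀ j < m, ((i : ℕ) : ℂ) = ((j : ℕ) : ℂ) → i = j :=
    fun i _ j _ h => by exact_mod_cast h
  have hex := fun c b : ℕ => exists_of_jets m L (fun k => (k : ℂ)) hnode
    (fun c' i => if c' = c ∧ i = b then 1 else 0)
  choose l hl1 hl2 using hex
  refine ⟨fun n c b => C ((n : ℂ) ^ b) * (l c b).comp (C (1 / (n : ℂ)) * X), ?_, ?_, ?_⟩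
  · intro n c b
    refine lt_of_le_of_lt ?_ (degree_scale (1 / (n : ℂ)) (l c b) (m * L) (hl1 c b))
    refine le_trans (degree_mul_le _ _) ?_
    refine le_trans (add_le_add_left (degree_C_le) _) ?_
    simp
  · intro n hn c hc b hb c' hc' i hi
    have hn0 : (n : ℂ) ≠ 0 := by exact_mod_cast (by omega : n ≠ 0)
    have h1 : (1 / (n : ℂ)) * ((c' : ℂ) * n) = c' := by field_simp
    show jet i ((c' : ℂ) * n) (C ((n : ℂ) ^ b) * (l c b).comp (C (1 / (n : ℂ)) * X)) = _
    rw [← smul_eq_C_mul, map_smul, jet_scale, h1, hl2 c b c' hc' i hi, smul_eq_mul]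
    split_ifs with h
    · rw [h.2, one_div, inv_pow, mul_one, mul_inv_cancel₀ (pow_ne_zero _ hn0)]
    · simp
  · intro c hc b hb c' hc' i hi
    have h2 : ∀ᶠ n : ℕ in atTop, jet i ((c' : ℂ) * n)
        (C ((n : ℂ) ^ b) * (l c b).comp (C (1 / (n : ℂ)) * X))
        = ((n : ℂ)⁻¹) ^ (i - b) * jet i c' (l c b) := by
      filter_upwards [eventually_ge_atTop 1] with n hn
      have hn0 : (n : ℂ) ≠ 0 := by exact_mod_cast (by omega : n ≠ 0)
      have h1 : (1 / (n : ℂ)) * ((c' : ℂ) * n) = c' := by field_simp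
      rw [← smul_eq_C_mul, map_smul, jet_scale, h1, smul_eq_mul, ← mul_assoc]
      congr 1
      obtain ⟨d, rfl⟩ : ∃ d, i = b + d := ⟨i - b, by omega⟩
      rw [Nat.add_sub_cancel_left, pow_add, one_div, ← mul_assoc, inv_pow,
        mul_inv_cancel₀ (pow_ne_zero _ hn0), one_mul]
    refine Tendsto.congr' (EventuallyEq.symm h2) ?_
    have h3 : Tendsto (fun n : ℕ => ((n : ℂ)⁻¹) ^ (i - b)) atTop (𝓝 0) := by
      have h4 : Tendsto (fun n : ℕ => ((n : ℂ)⁻¹)) atTop (𝓝 0) :=
        tendsto_inv_atTop_nhds_zero_nat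
      have h5 := h4.pow (i - b)
      rwa [zero_pow (by omega)] at h5
    simpa using h3.mul_const (jet i c' (l c b))

/-- Interpolation at three nodes. -/
theorem exists_interp (K' : ℕ) (m : ℕ → ℕ → ℂ) (hm : ∀ c < 3, ∀ l, K' ≤ l → m c l = 0) :
    ∃ g : ℕ → ℂ[X], (∀ n, (g n).degree < ((3 * K' : ℕ) : WithBot ℕ)) ∧
      ∀ c : ℕ, c < 3 → ∀ j : ℕ,
        Tendsto (fun n : ℕ => jet j ((c : ℂ) * n) (g n)) atTop (𝓝 (m c j)) := by
  obtain ⟨F, hF1, hF2, hF3⟩ := exists_fund 3 K'
  refine ⟨fun n => ∑ c ∈ Finset.range 3, ∑ b ∈ Finset.range K', m c b • F n c b, ?_, ?_⟩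
  · intro n
    rw [← mem_degreeLT]
    refine Submodule.sum_mem _ fun c _ => Submodule.sum_mem _ fun b _ => ?_
    exact Submodule.smul_mem _ _ (mem_degreeLT.mpr (hF1 n c b))
  · intro c hc j
    have h1 : ∀ n : ℕ, jet j ((c : ℂ) * n)
        (∑ c' ∈ Finset.range 3, ∑ b ∈ Finset.range K', m c' b • F n c' b)
        = ∑ c' ∈ Finset.range 3, ∑ b ∈ Finset.range K', m c' b * jet j ((c : ℂ) * n) (F n c' b) := by
      intro n
      simp only [map_sum, map_smul, smul_eq_mul]
    simp only [h1]
    by_cases hj : j < K'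
    · have h2 : (fun n : ℕ => ∑ c' ∈ Finset.range 3, ∑ b ∈ Finset.range K',
          m c' b * jet j ((c : ℂ) * n) (F n c' b)) =ᶠ[atTop] fun _ => m c j := by
        filter_upwards [eventually_ge_atTop 1] with n hn
        rw [Finset.sum_eq_single c, Finset.sum_eq_single j]
        · rw [hF2 n hn c hc j hj c hc j hj]; simp
        · intro b hb hbj
          rw [hF2 n hn c hc b (by simpa using hb) c hc j hj, if_neg (by tauto), mul_zero]
        · intro h; exact absurd (Finset.mem_range.mpr hj) h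
        · intro c' hc' hcc
          refine Finset.sum_eq_zero fun b hb => ?_
          rw [hF2 n hn c' (by simpa using hc') b (by simpa using hb) c hc j hj,
            if_neg (by tauto), mul_zero]
        · intro h; exact absurd (Finset.mem_range.mpr hc) h
      exact Tendsto.congr' h2.symm tendsto_const_nhds
    · have h3 : m c j = ∑ c' ∈ Finset.range 3, ∑ b ∈ Finset.range K', m c' b * 0 := by
        rw [hm c hc j (by omega)]; simp
      rw [h3]
      refine tendsto_finsetSum _ fun c' hc' => tendsto_finsetSum _ fun b hb => ?_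
      exact (hF3 c' (by simpa using hc') b (by simpa using hb) c hc j (by omega)).const_mul _

end

end Pool.MP_dc1b93_an
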