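import Pool.Agent.Lib.MP_dc1b93_an.Dense

/-!
The Baire category argument and the conclusion.
-/

set_option autoImplicit false

namespace Pool.MP_dc1b93_an

open Filter Topology

noncomputable section

variable {X : Type*} [NormedAddCommGroup X] [NormedSpace ℂ X]

theorem SS_nonempty (e : X) (he : e ≠ 0) : ∃ s ∈ SS e, s.2 e e ≠ 0 := by
  obtain ⟨f, hf⟩ := SeparatingDual.exists_eq_one (R := ℂ) he
  refine ⟨(Nop 1 (fun _ => e) (fun _ => f), Bop 1 (fun l => if l = 0 then 1 else 0) (fun _ => f)),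
    ⟨1, fun _ => e, fun _ => f, fun l => if l = 0 then 1 else 0, le_rfl, rfl, ?_, ?_, rfl⟩, ?_⟩
  · intro i hi j hj
    rw [if_pos (by omega)]; exact hf
  · intro l hl
    show (if l = 0 then (1 : ℂ) else 0) = 0
    rw [if_neg (by omega)]
  · rw [Bop_apply]
    simp [hf]

theorem w_Nop {K : ℕ} {v : ℕ → X} {w : ℕ → X →L[ℂ] ℂ} (h : IsFrame K v w)
    (i : ℕ) (hi : i < K) (x : X) : w i (Nop K v w x) = if i = 0 then 0 else w (i - 1) x := by
  rw [Nop_apply, map_sum]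
  simp only [map_smul, smul_eq_mul]
  split_ifs with h0
  · refine Finset.sum_eq_zero fun j hj => ?_
    rw [Finset.mem_range] at hj
    rw [h i (by omega) (j + 1) (by omega), if_neg (by omega), mul_zero]
  · rw [Finset.sum_eq_single (i - 1)]
    · rw [h i (by omega) (i - 1 + 1) (by omega), if_pos (by omega), mul_one]
    · intro j hj hji
      rw [Finset.mem_range] at hj
      rw [h i (by omega) (j + 1) (by omega), if_neg (by omega), mul_zero]
    · intro hh; exact absurd (Finset.mem_range.mpr (by omega)) hh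

theorem SS_symm (e : X) (s : (X →L[ℂ] X) × (X →L[ℂ] X →L[ℂ] ℂ)) (hs : s ∈ SS e) (x y : X) :
    s.2 x y = s.2 y x := by
  obtain ⟨K, v, w, m, -, -, -, -, rfl⟩ := hs
  exact Bop_symm K m w x y

theorem SS_N_symm (e : X) (s : (X →L[ℂ] X) × (X →L[ℂ] X →L[ℂ] ℂ)) (hs : s ∈ SS e) (x y : X) :
    s.2 (s.1 x) y = s.2 x (s.1 y) := by
  obtain ⟨K, v, w, m, -, -, hfr, hm, rfl⟩ := hs
  exact Bop_N_symm _ hm (fun i hi x => w_Nop hfr i hi x) x y

theorem SS_nilp (e : X) (s : (X →L[ℂ] X) × (X →L[ℂ] X →L[ℂ] ℂ)) (hs : s ∈ SS e) :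
    ∃ L : ℕ, 1 ≤ L ∧ s.1 ^ L = 0 := by
  obtain ⟨K, v, w, m, -, -, hfr, hm, rfl⟩ := hs
  refine ⟨K + 1, by omega, ?_⟩
  have h1 : ∀ j i, i < K → i < j → ∀ x, w i (((Nop K v w) ^ j) x) = 0 := by
    intro j
    induction j with
    | zero => intro i _ h; omega
    | succ j ih =>
      intro i hi hij x
      rw [pow_succ', mul_apply_eq_comp, w_Nop hfr i hi]
      split_ifs with h0
      · rfl
      · exact ih (i - 1) (by omega) (by omega) x
  ext x
  show ((Nop K v w) ^ (K + 1)) x = 0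
  rw [pow_succ', mul_apply_eq_comp, Nop_apply]
  refine Finset.sum_eq_zero fun i hi => ?_
  rw [Finset.mem_range] at hi
  rw [h1 K i (by omega) (by omega), zero_smul]

/-- Baire's theorem in the form used here. -/
theorem baire_generic {Z : Type*} [MetricSpace Z] [CompleteSpace Z] (S : Set Z) {ι : Type*}
    [Countable ι] (O : ι → Set Z) (hO : ∀ i, IsOpen (O i))
    (hd : ∀ i, ∀ s ∈ S, ∀ ε : ℝ, 0 < ε → ∃ s' ∈ S, dist s' s < ε ∧ s' ∈ O i)
    (W : Set Z) (hW : IsOpen W) (hWS : (W ∩ S).Nonempty) :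
    ∃ s ∈ closure S, s ∈ W ∧ ∀ i, s ∈ O i := by
  have hYc : IsClosed (closure S) := isClosed_closure
  have : CompleteSpace (closure S) := hYc.completeSpace_coe
  have hG : Dense (⋂ i, {s : closure S | (s : Z) ∈ O i}) := by
    refine dense_iInter_of_isOpen (fun i => (hO i).preimage continuous_subtype_val) ?_
    intro i
    rw [Metric.dense_iff]
    intro s r hr
    obtain ⟨s₀, hs₀, hd₀⟩ := Metric.mem_closure_iff.mp s.2 (r / 2) (by linarith)
    obtain ⟨s₁, hs₁, hd₁, hO₁⟩ := hd i s₀ hs₀ (r / 2) (by linarith)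
    refine ⟨⟨s₁, subset_closure hs₁⟩, ?_, hO₁⟩
    rw [Metric.mem_ball]
    show dist s₁ (s : Z) < r
    calc dist s₁ (s : Z) ≤ dist s₁ s₀ + dist s₀ s := dist_triangle _ _ _
      _ < r / 2 + r / 2 := by
        rw [dist_comm s₀]; linarith
      _ = r := by ring
  obtain ⟨s₀, hs₀W, hs₀⟩ := hWS
  obtain ⟨s, hsW, hsG⟩ := hG.inter_open_nonempty {s : closure S | (s : Z) ∈ W}
    (hW.preimage continuous_subtype_val) ⟨⟨s₀, subset_closure hs₀⟩, hs₀W⟩
  exact ⟨s, s.2, hsW, fun i => Set.mem_iInter.mp hsG i⟩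

/-- Existence of the pair `(N, B)` by Baire's theorem. -/
theorem exists_pair [CompleteSpace X] [TopologicalSpace.SeparableSpace X]
    (hX : ¬ FiniteDimensional ℂ X) :
    ∃ (e : X) (N : X →L[ℂ] X) (B : X →L[ℂ] X →L[ℂ] ℂ),
      (∀ y : X, ∀ ε : ℝ, 0 < ε → ∃ n : ℕ, ‖((NormedSpace.exp N) ^ n) e - y‖ < ε) ∧
      (∀ k : ℕ, ∃ l : ℕ, 1 ≤ l ∧ ‖N ^ l‖ < (1 / ((k : ℝ) + 1)) ^ l) ∧
      B e e ≠ 0 ∧ (∀ x y, B x y = B y x) ∧ (∀ x y, B (N x) y = B x (N y)) := by
  have hnt : Nontrivial X := by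
    by_contra h
    rw [not_nontrivial_iff_subsingleton] at h
    exact hX inferInstance
  obtain ⟨e, he⟩ := exists_ne (0 : X)
  let _ : NormedAlgebra ℚ (X →L[ℂ] X) := NormedAlgebra.restrictScalars ℚ ℂ _
  let A : ℕ × ℕ → Set ((X →L[ℂ] X) × (X →L[ℂ] X →L[ℂ] ℂ)) := fun p =>
    {s | ∃ n : ℕ, ‖((NormedSpace.exp s.1) ^ n) e - TopologicalSpace.denseSeq X p.1‖
      < 1 / ((p.2 : ℝ) + 1)}
  let C : ℕ → Set ((X →L[ℂ] X) × (X →L[ℂ] X →L[ℂ] ℂ)) :=
    fun k => {s | ∃ l : ℕ, 1 ≤ l ∧ ‖s.1 ^ l‖ < (1 / ((k : ℝ) + 1)) ^ l}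
  have hAo : ∀ p, IsOpen (A p) := by
    intro p
    have : A p = ⋃ n : ℕ, {s : (X →L[ℂ] X) × (X →L[ℂ] X →L[ℂ] ℂ) | ‖((NormedSpace.exp s.1) ^ n) e
        - TopologicalSpace.denseSeq X p.1‖ < 1 / ((p.2 : ℝ) + 1)} := by
      ext s; simp [A]
    rw [this]
    refine isOpen_iUnion fun n => ?_
    refine isOpen_lt ?_ continuous_const
    have h1 : Continuous fun s : (X →L[ℂ] X) × (X →L[ℂ] X →L[ℂ] ℂ) => (NormedSpace.exp s.1) ^ n :=
      ((NormedSpace.exp_continuous (𝔸 := X →L[ℂ] X)).comp continuous_fst).pow n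
    have h2 : Continuous fun s : (X →L[ℂ] X) × (X →L[ℂ] X →L[ℂ] ℂ) =>
        ((NormedSpace.exp s.1) ^ n) e :=
      ((ContinuousLinearMap.apply ℂ X) e).continuous.comp h1
    exact (h2.sub continuous_const).norm
  have hCo : ∀ k, IsOpen (C k) := by
    intro k
    have : C k = ⋃ l : ℕ, {s : (X →L[ℂ] X) × (X →L[ℂ] X →L[ℂ] ℂ) |
        1 ≤ l ∧ ‖s.1 ^ l‖ < (1 / ((k : ℝ) + 1)) ^ l} := by
      ext s; simp [C]
    rw [this]
    refine isOpen_iUnion fun l => ?_
    by_cases hl : 1 ≤ l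
    · simp only [hl, true_and]
      exact isOpen_lt ((continuous_fst.pow l).norm) continuous_const
    · simp [hl]
  have hWo : IsOpen {s : (X →L[ℂ] X) × (X →L[ℂ] X →L[ℂ] ℂ) | s.2 e e ≠ 0} := by
    have h1 : Continuous fun s : (X →L[ℂ] X) × (X →L[ℂ] X →L[ℂ] ℂ) => s.2 e e :=
      ((ContinuousLinearMap.apply ℂ ℂ) e).continuous.comp
        (((ContinuousLinearMap.apply ℂ (X →L[ℂ] ℂ)) e).continuous.comp continuous_snd)
    exact isOpen_ne.preimage h1
  obtain ⟨s₀, hs₀, hs₀e⟩ := SS_nonempty e he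
  obtain ⟨s, hsc, hsW, hsG⟩ := baire_generic (SS e) (Sum.elim A C)
    (by
      rintro (p | k)
      · exact hAo p
      · exact hCo k)
    (by
      rintro (p | k) s hs ε hε
      · obtain ⟨s', hs', hd, n, hn⟩ := dense_step hX e s hs (TopologicalSpace.denseSeq X p.1)
          (min ε (1 / ((p.2 : ℝ) + 1))) (lt_min hε (by positivity))
        exact ⟨s', hs', lt_of_lt_of_le hd (min_le_left _ _), n,
          lt_of_lt_of_le hn (min_le_right _ _)⟩
      · refine ⟨s, hs, by rw [dist_self]; exact hε, ?_⟩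
        obtain ⟨L, hL, hL0⟩ := SS_nilp e s hs
        refine ⟨L, hL, ?_⟩
        rw [hL0, norm_zero]
        positivity)
    {s | s.2 e e ≠ 0} hWo ⟨s₀, hs₀e, hs₀⟩
  refine ⟨e, s.1, s.2, ?_, ?_, hsW, ?_, ?_⟩
  · intro y ε hε
    obtain ⟨j, hj⟩ : ∃ j, dist (TopologicalSpace.denseSeq X j) y < ε / 2 := by
      obtain ⟨z, hz1, hz2⟩ := Metric.dense_iff.mp (TopologicalSpace.denseRange_denseSeq X) y
        (ε / 2) (by linarith)
      obtain ⟨j, rfl⟩ := hz2
      exact ⟨j, hz1⟩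
    obtain ⟨k, hk⟩ := exists_nat_one_div_lt (show (0 : ℝ) < ε / 2 by linarith)
    obtain ⟨n, hn⟩ := hsG (Sum.inl (j, k))
    refine ⟨n, ?_⟩
    rw [← dist_eq_norm] at hn ⊢
    have hn' : dist (((NormedSpace.exp s.1) ^ n) e) (TopologicalSpace.denseSeq X j)
      < 1 / ((k : ℝ) + 1) := hn
    calc dist _ y ≤ dist _ (TopologicalSpace.denseSeq X j)
          + dist (TopologicalSpace.denseSeq X j) y := dist_triangle _ _ _
      _ < ε := by linarith
  · intro k
    exact hsG (Sum.inr k)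
  · have hcl : IsClosed {s : (X →L[ℂ] X) × (X →L[ℂ] X →L[ℂ] ℂ) | ∀ x y, s.2 x y = s.2 y x} := by
      simp only [Set.ofPred_forall]
      refine isClosed_iInter fun x => isClosed_iInter fun y => ?_
      have h1 : ∀ x y : X, Continuous fun s : (X →L[ℂ] X) × (X →L[ℂ] X →L[ℂ] ℂ) => s.2 x y :=
        fun x y => ((ContinuousLinearMap.apply ℂ ℂ) y).continuous.comp
          (((ContinuousLinearMap.apply ℂ (X →L[ℂ] ℂ)) x).continuous.comp continuous_snd)
      exact isClosed_eq (h1 x y) (h1 y x)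
    exact closure_minimal (fun t ht => SS_symm e t ht) hcl hsc
  · have hcl : IsClosed {s : (X →L[ℂ] X) × (X →L[ℂ] X →L[ℂ] ℂ) |
        ∀ x y, s.2 (s.1 x) y = s.2 x (s.1 y)} := by
      simp only [Set.ofPred_forall]
      refine isClosed_iInter fun x => isClosed_iInter fun y => ?_
      have h0 : ∀ x : X, Continuous fun s : (X →L[ℂ] X) × (X →L[ℂ] X →L[ℂ] ℂ) => s.1 x :=
        fun x => ((ContinuousLinearMap.apply ℂ X) x).continuous.comp continuous_fst
      refine isClosed_eq ?_ ?_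
      · exact (continuous_snd.clm_apply (h0 x)).clm_apply continuous_const
      · exact (continuous_snd.clm_apply continuous_const).clm_apply (h0 y)
    exact closure_minimal (fun t ht => SS_N_symm e t ht) hcl hsc

end

end Pool.MP_dc1b93_an
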