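import Pool.Agent.Lib.MP_dc1b93_an.Frame

/-!
The density step.
-/

set_option autoImplicit false

namespace Pool.MP_dc1b93_an

open Polynomial Filter Topology

noncomputable section

variable {X : Type*} [NormedAddCommGroup X] [NormedSpace ℂ X]

section

variable {P : ℕ} {v : ℕ → X} {w : ℕ → X →L[ℂ] ℂ}

/-- The vectors of the second block. -/
def Uu (P : ℕ) (v : ℕ → X) (w : ℕ → X →L[ℂ] ℂ) (u₀ : X) (j : ℕ) : X := ((N0 P v w) ^ j) u₀

/-- The functionals of the first block. -/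
def Vs (P : ℕ) (v : ℕ → X) (w : ℕ → X →L[ℂ] ℂ) (u₀ : X) (i : ℕ) : X →L[ℂ] ℂ :=
  w i - ∑ l ∈ Finset.range P, (w i (Uu P v w u₀ l)) • w (P + l)

theorem Vs_apply (u₀ : X) (i : ℕ) (x : X) :
    Vs P v w u₀ i x = w i x - ∑ l ∈ Finset.range P, (w i (Uu P v w u₀ l)) * w (P + l) x := by
  simp [Vs]

theorem us_Uu (h : IsFrame (2 * P) v w) (u₀ : X)
    (hu1 : ∀ i < P, w (P + i) u₀ = if i = 0 then 1 else 0) (i : ℕ) (hi : i < P) (j : ℕ) :
    w (P + i) (Uu P v w u₀ j) = if i = j then 1 else 0 := by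
  unfold Uu
  rw [w_N0_pow' h _ j i hi]
  by_cases hij : j ≤ i
  · rw [if_pos hij, hu1 (i - j) (by omega)]
    by_cases h2 : i = j
    · rw [if_pos (by omega), if_pos h2]
    · rw [if_neg (by omega), if_neg h2]
  · rw [if_neg hij, if_neg (by omega)]

theorem Pr_Uu (h : IsFrame (2 * P) v w) (u₀ : X) (hu0 : Pr (2 * P) v w u₀ = u₀) (j : ℕ) :
    Pr (2 * P) v w (Uu P v w u₀ j) = Uu P v w u₀ j := by
  unfold Uu
  cases j with
  | zero => simpa using hu0
  | succ j => rw [pow_succ', mul_apply_eq_comp, Pr_N0 h]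

theorem bi_step (h : IsFrame (2 * P) v w) (u₀ : X)
    (hu1 : ∀ i < P, w (P + i) u₀ = if i = 0 then 1 else 0) :
    Bi P v (Uu P v w u₀) (Vs P v w u₀) (fun i => w (P + i)) := by
  refine ⟨?_, ?_, ?_, ?_⟩
  · intro i hi j hj
    rw [Vs_apply, h i (by omega) j (by omega)]
    have : ∑ l ∈ Finset.range P, (w i (Uu P v w u₀ l)) * w (P + l) (v j) = 0 := by
      refine Finset.sum_eq_zero fun l hl => ?_
      rw [Finset.mem_range] at hl
      rw [h _ (by omega) j (by omega), if_neg (by omega), mul_zero]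
    rw [this, sub_zero]
  · intro i hi j hj
    rw [Vs_apply, Finset.sum_eq_single j]
    · rw [us_Uu h u₀ hu1 j hj j, if_pos rfl, mul_one, sub_self]
    · intro l hl hlj
      rw [us_Uu h u₀ hu1 l (by simpa using hl) j, if_neg hlj, mul_zero]
    · intro hh; exact absurd (Finset.mem_range.mpr hj) hh
  · intro i hi j hj
    show w (P + i) (v j) = 0
    rw [h _ (by omega) j (by omega), if_neg (by omega)]
  · intro i hi j hj
    exact us_Uu h u₀ hu1 i hi j

/-- Decomposition of the frame projection in the two-block basis. -/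
theorem Pr_two_block (h : IsFrame (2 * P) v w) (u₀ : X) (hu0 : Pr (2 * P) v w u₀ = u₀)
    (hu1 : ∀ i < P, w (P + i) u₀ = if i = 0 then 1 else 0) (x : X) :
    Pr (2 * P) v w x
      = ∑ a ∈ Finset.range P, (Vs P v w u₀ a x • v a + w (P + a) x • Uu P v w u₀ a) := by
  have hU : ∀ a < P, Uu P v w u₀ a
      = ∑ i ∈ Finset.range P, w i (Uu P v w u₀ a) • v i + v (P + a) := by
    intro a ha
    conv_lhs => rw [← Pr_Uu h u₀ hu0 a, Pr_split]
    congr 1
    rw [Finset.sum_eq_single a]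
    · rw [us_Uu h u₀ hu1 a ha a, if_pos rfl, one_smul]
    · intro l hl hla
      rw [us_Uu h u₀ hu1 l (by simpa using hl) a, if_neg hla, zero_smul]
    · intro hh; exact absurd (Finset.mem_range.mpr ha) hh
  rw [Pr_split, Finset.sum_add_distrib]
  have h1 : ∑ a ∈ Finset.range P, w (P + a) x • Uu P v w u₀ a
      = ∑ a ∈ Finset.range P, ∑ i ∈ Finset.range P, (w (P + a) x * w i (Uu P v w u₀ a)) • v i
        + ∑ a ∈ Finset.range P, w (P + a) x • v (P + a) := by
    rw [← Finset.sum_add_distrib]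
    refine Finset.sum_congr rfl fun a ha => ?_
    rw [Finset.mem_range] at ha
    conv_lhs => rw [hU a ha]
    rw [smul_add, Finset.smul_sum]
    congr 1
    refine Finset.sum_congr rfl fun i _ => ?_
    rw [smul_smul]
  have h2 : ∑ a ∈ Finset.range P, Vs P v w u₀ a x • v a
      = ∑ a ∈ Finset.range P, w a x • v a
        - ∑ a ∈ Finset.range P, ∑ i ∈ Finset.range P, (w (P + a) x * w i (Uu P v w u₀ a)) • v i := by
    rw [Finset.sum_comm, ← Finset.sum_sub_distrib]
    refine Finset.sum_congr rfl fun a _ => ?_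
    rw [Vs_apply, sub_smul, Finset.sum_smul]
    congr 1
    refine Finset.sum_congr rfl fun l _ => ?_
    rw [mul_comm]
  rw [h1, h2]
  abel

theorem N0_v (h : IsFrame (2 * P) v w) (hP : 1 ≤ P) (a : ℕ) (ha : a < P) :
    N0 P v w (v a) = if a + 1 < P then v (a + 1) else 0 := by
  have h1 := N0_pow_v h hP a
  rw [if_pos ha] at h1
  rw [← h1, ← mul_apply_eq_comp, ← pow_succ']
  exact N0_pow_v h hP (a + 1)

theorem Uu_top (h : IsFrame (2 * P) v w) (u₀ : X)
    (hu0 : Pr (2 * P) v w u₀ = u₀) : Uu P v w u₀ P = 0 := by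
  refine eq_zero_of_Pr _ (Pr_Uu h u₀ hu0 P) ?_
  intro i hi
  unfold Uu
  rcases Nat.lt_or_ge i P with hiP | hiP
  · rw [w_N0_pow h _ P i hiP, if_neg (by omega)]
  · obtain ⟨j, rfl⟩ : ∃ j, i = P + j := ⟨i - P, by omega⟩
    rw [w_N0_pow' h _ P j (by omega), if_neg (by omega)]

/-- `N0` in the two-block basis. -/
theorem N0_two_block (h : IsFrame (2 * P) v w) (hP : 1 ≤ P) (u₀ : X)
    (hu0 : Pr (2 * P) v w u₀ = u₀)
    (hu1 : ∀ i < P, w (P + i) u₀ = if i = 0 then 1 else 0) :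
    N0 P v w = ∑ b ∈ Finset.range (P - 1), ((Vs P v w u₀ b).smulRight (v (b + 1))
          + ((fun i => w (P + i)) b).smulRight (Uu P v w u₀ (b + 1))) := by
  ext x
  conv_lhs => rw [← N0_Pr h x, Pr_two_block h u₀ hu0 hu1 x]
  rw [map_sum]
  simp only [map_add, map_smul, sum_apply, add_apply, ContinuousLinearMap.smulRight_apply]
  have hU : ∀ a, N0 P v w (Uu P v w u₀ a) = Uu P v w u₀ (a + 1) := by
    intro a
    unfold Uu
    rw [pow_succ', mul_apply_eq_comp]
  obtain ⟨p, rfl⟩ : ∃ p, P = p + 1 := ⟨P - 1, by omega⟩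
  rw [Finset.sum_range_succ, Nat.add_sub_cancel]
  rw [N0_v h hP p (by omega), if_neg (by omega), hU p, Uu_top h u₀ hu0, smul_zero, smul_zero,
    add_zero, add_zero]
  refine Finset.sum_congr rfl fun a ha => ?_
  rw [Finset.mem_range] at ha
  rw [N0_v h hP a (by omega), if_pos (by omega), hU a]

theorem Bop_symm (K : ℕ) (m : ℕ → ℂ) (w : ℕ → X →L[ℂ] ℂ) (x y : X) :
    Bop K m w x y = Bop K m w y x := by
  rw [Bop_apply, Bop_apply, Finset.sum_comm]
  refine Finset.sum_congr rfl fun i _ => Finset.sum_congr rfl fun j _ => ?_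
  rw [add_comm j i]; ring

/-- A shift-type operator is symmetric for a Hankel form. -/
theorem Bop_shift {K : ℕ} {m : ℕ → ℂ} {w : ℕ → X →L[ℂ] ℂ} (N : X →L[ℂ] X)
    (hm : ∀ l, K ≤ l → m l = 0)
    (hN : ∀ i < K, ∀ x, w i (N x) = if i = 0 then 0 else w (i - 1) x) (x y : X) :
    Bop K m w (N x) y = ∑ i ∈ Finset.range K, ∑ j ∈ Finset.range K,
      m (i + j + 1) * (w i x * w j y) := by
  rw [Bop_apply]
  cases K with
  | zero => simp
  | succ k =>
    rw [Finset.sum_range_succ']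
    conv_rhs => rw [Finset.sum_range_succ]
    have h1 : ∑ j ∈ Finset.range (k + 1), m (0 + j) * (w 0 (N x) * w j y) = 0 := by
      refine Finset.sum_eq_zero fun j _ => ?_
      rw [hN 0 (by omega), if_pos rfl]; ring
    have h2 : ∑ j ∈ Finset.range (k + 1), m (k + j + 1) * (w k x * w j y) = 0 := by
      refine Finset.sum_eq_zero fun j _ => ?_
      rw [hm _ (by omega)]; ring
    rw [h1, h2, add_zero, add_zero]
    refine Finset.sum_congr rfl fun i hi => Finset.sum_congr rfl fun j _ => ?_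
    rw [Finset.mem_range] at hi
    rw [hN (i + 1) (by omega), if_neg (by omega), Nat.add_sub_cancel]
    congr 2; omega

theorem Bop_N_symm {K : ℕ} {m : ℕ → ℂ} {w : ℕ → X →L[ℂ] ℂ} (N : X →L[ℂ] X)
    (hm : ∀ l, K ≤ l → m l = 0)
    (hN : ∀ i < K, ∀ x, w i (N x) = if i = 0 then 0 else w (i - 1) x) (x y : X) :
    Bop K m w (N x) y = Bop K m w x (N y) := by
  rw [Bop_symm K m w x (N y), Bop_shift N hm hN, Bop_shift N hm hN, Finset.sum_comm]
  refine Finset.sum_congr rfl fun i _ => Finset.sum_congr rfl fun j _ => ?_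
  rw [add_comm j i]; ring

theorem Bop_N_pow_symm {K : ℕ} {m : ℕ → ℂ} {w : ℕ → X →L[ℂ] ℂ} (N : X →L[ℂ] X)
    (hm : ∀ l, K ≤ l → m l = 0)
    (hN : ∀ i < K, ∀ x, w i (N x) = if i = 0 then 0 else w (i - 1) x) (l : ℕ) (x y : X) :
    Bop K m w ((N ^ l) x) y = Bop K m w x ((N ^ l) y) := by
  induction l generalizing x y with
  | zero => simp
  | succ l ih =>
    rw [pow_succ', mul_apply_eq_comp, Bop_N_symm N hm hN, ih, ← mul_apply_eq_comp, ← pow_succ,
      pow_succ']

theorem Bop_extend {K P : ℕ} (hKP : K ≤ P) {m : ℕ → ℂ} {w : ℕ → X →L[ℂ] ℂ}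
    (hm : ∀ l, K ≤ l → m l = 0) : Bop K m w = Bop P m w := by
  ext x y
  rw [Bop_apply, Bop_apply]
  have h1 : ∀ i, ∑ j ∈ Finset.range K, m (i + j) * (w i x * w j y)
      = ∑ j ∈ Finset.range P, m (i + j) * (w i x * w j y) := by
    intro i
    refine Finset.sum_subset (fun j hj => ?_) (fun j _ hj => ?_)
    · simp only [Finset.mem_range] at hj ⊢; omega
    · simp only [Finset.mem_range, not_lt] at hj
      rw [hm _ (by omega), zero_mul]
  simp only [h1]
  refine Finset.sum_subset (fun j hj => ?_) (fun i _ hi => ?_)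
  · simp only [Finset.mem_range] at hj ⊢; omega
  · simp only [Finset.mem_range, not_lt] at hi
    refine Finset.sum_eq_zero fun j _ => ?_
    rw [hm _ (by omega), zero_mul]

theorem Bop_v (h : IsFrame (2 * P) v w) (m : ℕ → ℂ) (a b : ℕ) (ha : a < P) (hb : b < P) :
    Bop P m w (v a) (v b) = m (a + b) := by
  rw [Bop_apply, Finset.sum_eq_single a, Finset.sum_eq_single b]
  · rw [h a (by omega) a (by omega), h b (by omega) b (by omega)]; simp
  · intro j hj hjb
    rw [Finset.mem_range] at hj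
    rw [h j (by omega) b (by omega), if_neg hjb]; ring
  · intro hh; exact absurd (Finset.mem_range.mpr hb) hh
  · intro i hi hia
    rw [Finset.mem_range] at hi
    refine Finset.sum_eq_zero fun j _ => ?_
    rw [h i (by omega) a (by omega), if_neg hia]; ring
  · intro hh; exact absurd (Finset.mem_range.mpr ha) hh

/-- The three moment sequences. -/
def mm (P : ℕ) (v : ℕ → X) (w : ℕ → X →L[ℂ] ℂ) (m : ℕ → ℂ) (u₀ : X) (c l : ℕ) : ℂ :=
  if c = 0 then m l else if c = 1 then Bop P m w (v 0) (Uu P v w u₀ l)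
  else Bop P m w u₀ (Uu P v w u₀ l)

theorem mm_zero (h : IsFrame (2 * P) v w) {K : ℕ} (m : ℕ → ℂ)
    (hm : ∀ l, K ≤ l → m l = 0) (u₀ : X) (c l : ℕ) (hl : K ≤ l) :
    mm P v w m u₀ c l = 0 := by
  have key : ∀ x, Bop P m w x (Uu P v w u₀ l) = 0 := by
    intro x
    rw [Bop_apply]
    refine Finset.sum_eq_zero fun i _ => Finset.sum_eq_zero fun j hj => ?_
    rw [Finset.mem_range] at hj
    unfold Uu
    rw [w_N0_pow h _ l j hj]
    by_cases hlj : l ≤ j
    · rw [hm _ (by omega)]; ring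
    · rw [if_neg hlj]; ring
  unfold mm
  split_ifs
  · exact hm l hl
  · exact key _
  · exact key _

theorem Bop_two_block (h : IsFrame (2 * P) v w) (hP : 1 ≤ P) (m : ℕ → ℂ)
    (hm : ∀ l, P ≤ l → m l = 0) (u₀ : X)
    (hu0 : Pr (2 * P) v w u₀ = u₀)
    (hu1 : ∀ i < P, w (P + i) u₀ = if i = 0 then 1 else 0) :
    Bop P m w = ∑ a ∈ Finset.range P, ∑ b ∈ Finset.range P,
      (mm P v w m u₀ 0 (a + b) • (Vs P v w u₀ a).smulRight (Vs P v w u₀ b)
        + mm P v w m u₀ 1 (a + b) • ((Vs P v w u₀ a).smulRight ((fun i => w (P + i)) b)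
            + ((fun i => w (P + i)) a).smulRight (Vs P v w u₀ b))
        + mm P v w m u₀ 2 (a + b) • ((fun i => w (P + i)) a).smulRight ((fun i => w (P + i)) b))
    := by
  have hN : ∀ i < P, ∀ x, w i (N0 P v w x) = if i = 0 then 0 else w (i - 1) x :=
    fun i hi x => w_N0 h x i hi
  have hBP : ∀ x y, Bop P m w (Pr (2 * P) v w x) (Pr (2 * P) v w y) = Bop P m w x y := by
    intro x y
    rw [Bop_apply, Bop_apply]
    refine Finset.sum_congr rfl fun i hi => Finset.sum_congr rfl fun j hj => ?_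
    rw [Finset.mem_range] at hi hj
    rw [h.w_Pr x i (by omega), h.w_Pr y j (by omega)]
  have hv : ∀ a < P, v a = ((N0 P v w) ^ a) (v 0) := by
    intro a ha
    rw [N0_pow_v h hP a, if_pos ha]
  have h00 : ∀ a < P, ∀ b < P, Bop P m w (v a) (v b) = mm P v w m u₀ 0 (a + b) := by
    intro a ha b hb
    rw [Bop_v h m a b ha hb]; rfl
  have h01 : ∀ a < P, ∀ b < P, Bop P m w (v a) (Uu P v w u₀ b) = mm P v w m u₀ 1 (a + b) := by
    intro a ha b hb
    rw [hv a ha, Bop_N_pow_symm _ hm hN]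
    show Bop P m w (v 0) (((N0 P v w) ^ a) (((N0 P v w) ^ b) u₀))
      = Bop P m w (v 0) (((N0 P v w) ^ (a + b)) u₀)
    rw [pow_add, mul_apply_eq_comp]
  have h10 : ∀ a < P, ∀ b < P, Bop P m w (Uu P v w u₀ a) (v b) = mm P v w m u₀ 1 (a + b) := by
    intro a ha b hb
    rw [Bop_symm, h01 b hb a ha, add_comm]
  have h11 : ∀ a < P, ∀ b < P, Bop P m w (Uu P v w u₀ a) (Uu P v w u₀ b)
      = mm P v w m u₀ 2 (a + b) := by
    intro a ha b hb
    show Bop P m w (((N0 P v w) ^ a) u₀) (((N0 P v w) ^ b) u₀)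
      = Bop P m w u₀ (((N0 P v w) ^ (a + b)) u₀)
    rw [Bop_N_pow_symm _ hm hN, pow_add, mul_apply_eq_comp]
  ext x y
  rw [← hBP x y, Pr_two_block h u₀ hu0 hu1 x, Pr_two_block h u₀ hu0 hu1 y]
  simp only [map_sum, sum_apply]
  rw [Finset.sum_comm]
  refine Finset.sum_congr rfl fun a ha => ?_
  refine Finset.sum_congr rfl fun b hb => ?_
  rw [Finset.mem_range] at ha hb
  simp only [map_add, map_smul, add_apply, smul_apply, ContinuousLinearMap.smulRight_apply]
  rw [h00 a ha b hb, h01 a ha b hb, h10 a ha b hb, h11 a ha b hb]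
  simp only [smul_eq_mul]
  ring

end

end

end Pool.MP_dc1b93_an
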