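import Pool.Agent.Lib.MP_dc1b93_an.Jet

/-!
Deformation of a two-block nilpotent operator with an invariant symmetric form into one-block
nilpotent operators carrying such a form.
-/

set_option autoImplicit false

namespace Pool.MP_dc1b93_an

open Polynomial Filter Topology

noncomputable section

variable {X : Type*} [NormedAddCommGroup X] [NormedSpace ℂ X]

/-- The nilpotent operator attached to a frame. -/
def Nop (K : ℕ) (v : ℕ → X) (w : ℕ → X →L[ℂ] ℂ) : X →L[ℂ] X :=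
  ∑ i ∈ Finset.range (K - 1), (w i).smulRight (v (i + 1))

/-- The Hankel form attached to a frame. -/
def Bop (K : ℕ) (m : ℕ → ℂ) (w : ℕ → X →L[ℂ] ℂ) : X →L[ℂ] X →L[ℂ] ℂ :=
  ∑ i ∈ Finset.range K, ∑ j ∈ Finset.range K, m (i + j) • (w i).smulRight (w j)

/-- Biorthogonality. -/
def IsFrame (K : ℕ) (v : ℕ → X) (w : ℕ → X →L[ℂ] ℂ) : Prop :=
  ∀ i < K, ∀ j < K, w i (v j) = if i = j then 1 else 0

/-- One-block nilpotent operators with cyclic vector `e` and a Hankel form. -/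
def SS (e : X) : Set ((X →L[ℂ] X) × (X →L[ℂ] X →L[ℂ] ℂ)) :=
  {s | ∃ (K : ℕ) (v : ℕ → X) (w : ℕ → X →L[ℂ] ℂ) (m : ℕ → ℂ), 1 ≤ K ∧ v 0 = e ∧ IsFrame K v w ∧
    (∀ l, K ≤ l → m l = 0) ∧ s = (Nop K v w, Bop K m w)}

theorem Nop_apply (K : ℕ) (v : ℕ → X) (w : ℕ → X →L[ℂ] ℂ) (x : X) :
    Nop K v w x = ∑ i ∈ Finset.range (K - 1), w i x • v (i + 1) := by
  simp [Nop]

theorem Bop_apply (K : ℕ) (m : ℕ → ℂ) (w : ℕ → X →L[ℂ] ℂ) (x y : X) :
    Bop K m w x y
      = ∑ i ∈ Finset.range K, ∑ j ∈ Finset.range K, m (i + j) * (w i x * w j y) := by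
  simp [Bop]

theorem Nop_v {K : ℕ} {v : ℕ → X} {w : ℕ → X →L[ℂ] ℂ} (h : IsFrame K v w) (j : ℕ) (hj : j < K) :
    Nop K v w (v j) = if j + 1 < K then v (j + 1) else 0 := by
  rw [Nop_apply]
  split_ifs with hj1
  · rw [Finset.sum_eq_single j]
    · rw [h j hj j hj]; simp
    · intro i hi hij
      rw [Finset.mem_range] at hi
      rw [h i (by omega) j hj, if_neg hij, zero_smul]
    · intro hj2; exact absurd (Finset.mem_range.mpr (by omega)) hj2
  · refine Finset.sum_eq_zero fun i hi => ?_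
    rw [Finset.mem_range] at hi
    rw [h i (by omega) j hj, if_neg (by omega), zero_smul]

theorem Nop_pow_e {K : ℕ} {v : ℕ → X} {w : ℕ → X →L[ℂ] ℂ} (hK : 1 ≤ K) (h : IsFrame K v w)
    (j : ℕ) : ((Nop K v w) ^ j) (v 0) = if j < K then v j else 0 := by
  induction j with
  | zero => simp [show 0 < K by omega]
  | succ j ih =>
    rw [pow_succ', mul_apply_eq_comp, ih]
    by_cases hj : j < K
    · rw [if_pos hj, Nop_v h j hj]
    · rw [if_neg hj, map_zero, if_neg (by omega)]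

theorem exp_pow_apply [CompleteSpace X] (N : X →L[ℂ] X) (e : X) (L : ℕ)
    (hN : ∀ l, L ≤ l → (N ^ l) e = 0) (n : ℕ) :
    ((NormedSpace.exp N) ^ n) e = ∑ l ∈ Finset.range L, tc 0 (n : ℂ) l • (N ^ l) e := by
  let _ : NormedAlgebra ℚ (X →L[ℂ] X) := NormedAlgebra.restrictScalars ℚ ℂ _
  rw [← NormedSpace.exp_nsmul]
  have h1 := NormedSpace.exp_series_hasSum_exp' (𝕂 := ℂ) (n • N)
  have h2 := ((ContinuousLinearMap.apply ℂ X) e).hasSum h1
  have h3 : HasSum (fun l : ℕ => tc 0 (n : ℂ) l • (N ^ l) e)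
      (∑ l ∈ Finset.range L, tc 0 (n : ℂ) l • (N ^ l) e) := by
    refine hasSum_sum_of_ne_finset_zero fun l hl => ?_
    rw [hN l (by simpa using hl), smul_zero]
  refine HasSum.unique ?_ h3
  refine Eq.mp ?_ h2
  congr 1
  funext l
  simp only [ContinuousLinearMap.apply_apply, smul_apply]
  rw [tc, if_pos (Nat.zero_le _), Nat.sub_zero]
  have h4 : (n • N) ^ l = ((n : ℂ) ^ l) • N ^ l := by
    rw [← Nat.cast_smul_eq_nsmul ℂ, _root_.smul_pow]
  rw [h4, smul_apply, smul_smul]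
  congr 1
  rw [div_eq_mul_inv, mul_comm]

/-- Fundamental polynomials for two-point Hermite interpolation at `0` and `n`. -/
structure Fund (K : ℕ) (n : ℂ) (F : ℕ → ℕ → ℂ[X]) : Prop where
  deg : ∀ s b, (F s b).degree < ((2 * K : ℕ) : WithBot ℕ)
  h00 : ∀ b < K, ∀ i < K, jet i 0 (F 0 b) = if i = b then 1 else 0
  h01 : ∀ b < K, ∀ i < K, jet i 0 (F 1 b) = 0
  h10 : ∀ b < K, ∀ i < K, jet i n (F 0 b) = 0
  h11 : ∀ b < K, ∀ i < K, jet i n (F 1 b) = if i = b then 1 else 0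

theorem Fund.decomp {K : ℕ} {n : ℂ} {F : ℕ → ℕ → ℂ[X]} (hF : Fund K n F) (hn : n ≠ 0)
    (f : ℂ[X]) (hf : f.degree < ((2 * K : ℕ) : WithBot ℕ)) :
    ∑ b ∈ Finset.range K, (jet b 0 f • F 0 b + jet b n f • F 1 b) = f := by
  rw [← sub_eq_zero]
  refine eq_zero_of_jets 2 K (fun k => (k : ℂ) * n) ?_ _ ?_ ?_
  · intro i _ j _ h
    have := mul_right_cancel₀ hn h
    exact_mod_cast this
  · rw [← mem_degreeLT]
    refine Submodule.sub_mem _ (Submodule.sum_mem _ fun b _ => ?_) (mem_degreeLT.mpr hf)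
    exact Submodule.add_mem _ (Submodule.smul_mem _ _ (mem_degreeLT.mpr (hF.deg 0 b)))
      (Submodule.smul_mem _ _ (mem_degreeLT.mpr (hF.deg 1 b)))
  · intro k hk i hi
    have hk' : k = 0 ∨ k = 1 := by omega
    rw [map_sub, map_sum, sub_eq_zero]
    simp only [map_add, map_smul, smul_eq_mul]
    rcases hk' with rfl | rfl
    · simp only [Nat.cast_zero, zero_mul]
      rw [Finset.sum_eq_single i]
      · rw [hF.h00 i hi i hi, hF.h01 i hi i hi]; simp
      · intro b hb hbi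
        rw [Finset.mem_range] at hb
        rw [hF.h00 b hb i hi, hF.h01 b hb i hi, if_neg (Ne.symm hbi)]; simp
      · intro h; exact absurd (Finset.mem_range.mpr hi) h
    · simp only [Nat.cast_one, one_mul]
      rw [Finset.sum_eq_single i]
      · rw [hF.h10 i hi i hi, hF.h11 i hi i hi]; simp
      · intro b hb hbi
        rw [Finset.mem_range] at hb
        rw [hF.h10 b hb i hi, hF.h11 b hb i hi, if_neg (Ne.symm hbi)]; simp
      · intro h; exact absurd (Finset.mem_range.mpr hi) h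

/-- The vector attached to a functional on polynomials. -/
def Sv (K : ℕ) (F : ℕ → ℕ → ℂ[X]) (vv uu : ℕ → X) (φ : ℂ[X] →ₗ[ℂ] ℂ) : X :=
  ∑ b ∈ Finset.range K, (φ (F 0 b) • vv b + φ (F 1 b) • uu b)

/-- The new functionals. -/
def Ws (K : ℕ) (n : ℂ) (vs us : ℕ → X →L[ℂ] ℂ) (i : ℕ) : X →L[ℂ] ℂ :=
  ∑ b ∈ Finset.range K, (tc b 0 i • vs b + tc b n i • us b)

theorem Ws_apply (K : ℕ) (n : ℂ) (vs us : ℕ → X →L[ℂ] ℂ) (i : ℕ) (x : X) :
    Ws K n vs us i x = ∑ b ∈ Finset.range K, (tc b 0 i * vs b x + tc b n i * us b x) := by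
  simp [Ws]

theorem Sv_jet0 {K : ℕ} {n : ℂ} {F : ℕ → ℕ → ℂ[X]} (hF : Fund K n F) (vv uu : ℕ → X)
    (b : ℕ) (hb : b < K) : Sv K F vv uu (jet b 0) = vv b := by
  unfold Sv
  rw [Finset.sum_eq_single b]
  · rw [hF.h00 b hb b hb, hF.h01 b hb b hb]; simp
  · intro c hc hcb
    rw [Finset.mem_range] at hc
    rw [hF.h00 c hc b hb, hF.h01 c hc b hb, if_neg (Ne.symm hcb)]; simp
  · intro h; exact absurd (Finset.mem_range.mpr hb) h

theorem Sv_jetn {K : ℕ} {n : ℂ} {F : ℕ → ℕ → ℂ[X]} (hF : Fund K n F) (vv uu : ℕ → X)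
    (b : ℕ) (hb : b < K) : Sv K F vv uu (jet b n) = uu b := by
  unfold Sv
  rw [Finset.sum_eq_single b]
  · rw [hF.h10 b hb b hb, hF.h11 b hb b hb]; simp
  · intro c hc hcb
    rw [Finset.mem_range] at hc
    rw [hF.h10 c hc b hb, hF.h11 c hc b hb, if_neg (Ne.symm hcb)]; simp
  · intro h; exact absurd (Finset.mem_range.mpr hb) h

theorem natDegree_lt_of {K : ℕ} (hK : 1 ≤ K) {f : ℂ[X]} (hf : f.degree < (K : WithBot ℕ)) :
    f.natDegree < K := by
  by_cases h0 : f = 0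
  · subst h0; rw [natDegree_zero]; omega
  · exact (natDegree_lt_iff_degree_lt h0).mpr hf

/-- `Sv` and Taylor's formula. -/
theorem Sv_taylor {K : ℕ} {n : ℂ} {F : ℕ → ℕ → ℂ[X]} (hK : 1 ≤ K) (hF : Fund K n F)
    (vv uu : ℕ → X) (b : ℕ) (s : ℂ) :
    ∑ i ∈ Finset.range (2 * K), tc b s i • Sv K F vv uu (jet i 0) = Sv K F vv uu (jet b s) := by
  have key : ∀ t c, ∑ i ∈ Finset.range (2 * K), tc b s i * jet i 0 (F t c) = jet b s (F t c) := by
    intro t c
    have := taylor_jet (2 * K) (F t c) (natDegree_lt_of (by omega) (hF.deg t c)) b s 0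
    rwa [add_zero] at this
  unfold Sv
  simp only [Finset.smul_sum]
  rw [Finset.sum_comm]
  refine Finset.sum_congr rfl fun c _ => ?_
  simp only [smul_add, Finset.sum_add_distrib, smul_smul, ← Finset.sum_smul]
  rw [key 0 c, key 1 c]

theorem Sv_taylor' {K : ℕ} {n : ℂ} {F : ℕ → ℕ → ℂ[X]} (hK : 1 ≤ K) (hF : Fund K n F)
    (vv uu : ℕ → X) (b : ℕ) (s : ℂ) :
    ∑ i ∈ Finset.range (2 * K - 1), tc b s i • Sv K F vv uu (jet (i + 1) 0)
      = Sv K F vv uu (jet (b + 1) s) := by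
  have key : ∀ t c, ∑ i ∈ Finset.range (2 * K - 1), tc b s i * jet (i + 1) 0 (F t c)
      = jet (b + 1) s (F t c) := by
    intro t c
    have h1 := natDegree_lt_of (by omega) (hF.deg t c)
    have h2 : (derivative (F t c)).natDegree < 2 * K - 1 := by
      have := natDegree_derivative_le (F t c)
      omega
    have := taylor_jet (2 * K - 1) (derivative (F t c)) h2 b s 0
    rw [add_zero] at this
    simpa only [jet_derivative] using this
  unfold Sv
  simp only [Finset.smul_sum]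
  rw [Finset.sum_comm]
  refine Finset.sum_congr rfl fun c _ => ?_
  simp only [smul_add, Finset.sum_add_distrib, smul_smul, ← Finset.sum_smul]
  rw [key 0 c, key 1 c]

/-- Biorthogonality of a two-block system. -/
structure Bi (K : ℕ) (vv uu : ℕ → X) (vs us : ℕ → X →L[ℂ] ℂ) : Prop where
  h1 : ∀ i < K, ∀ j < K, vs i (vv j) = if i = j then 1 else 0
  h2 : ∀ i < K, ∀ j < K, vs i (uu j) = 0
  h3 : ∀ i < K, ∀ j < K, us i (vv j) = 0
  h4 : ∀ i < K, ∀ j < K, us i (uu j) = if i = j then 1 else 0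

theorem Bi.vs_Sv {K : ℕ} {vv uu : ℕ → X} {vs us : ℕ → X →L[ℂ] ℂ} (h : Bi K vv uu vs us)
    (F : ℕ → ℕ → ℂ[X]) (φ : ℂ[X] →ₗ[ℂ] ℂ) (b : ℕ) (hb : b < K) :
    vs b (Sv K F vv uu φ) = φ (F 0 b) := by
  unfold Sv
  rw [map_sum, Finset.sum_eq_single b]
  · rw [map_add, map_smul, map_smul, h.h1 b hb b hb, h.h2 b hb b hb]; simp
  · intro c hc hcb
    rw [Finset.mem_range] at hc
    rw [map_add, map_smul, map_smul, h.h1 b hb c hc, h.h2 b hb c hc, if_neg (Ne.symm hcb)]; simp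
  · intro h; exact absurd (Finset.mem_range.mpr hb) h

theorem Bi.us_Sv {K : ℕ} {vv uu : ℕ → X} {vs us : ℕ → X →L[ℂ] ℂ} (h : Bi K vv uu vs us)
    (F : ℕ → ℕ → ℂ[X]) (φ : ℂ[X] →ₗ[ℂ] ℂ) (b : ℕ) (hb : b < K) :
    us b (Sv K F vv uu φ) = φ (F 1 b) := by
  unfold Sv
  rw [map_sum, Finset.sum_eq_single b]
  · rw [map_add, map_smul, map_smul, h.h3 b hb b hb, h.h4 b hb b hb]; simp
  · intro c hc hcb
    rw [Finset.mem_range] at hc
    rw [map_add, map_smul, map_smul, h.h3 b hb c hc, h.h4 b hb c hc, if_neg (Ne.symm hcb)]; simp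
  · intro h; exact absurd (Finset.mem_range.mpr hb) h

theorem isFrame_new {K : ℕ} {n : ℂ} {F : ℕ → ℕ → ℂ[X]} {vv uu : ℕ → X}
    {vs us : ℕ → X →L[ℂ] ℂ} (hF : Fund K n F) (hn : n ≠ 0)
    (h : Bi K vv uu vs us) :
    IsFrame (2 * K) (fun j => Sv K F vv uu (jet j 0)) (Ws K n vs us) := by
  intro i hi j hj
  rw [Ws_apply]
  have h1 : ∑ b ∈ Finset.range K, (tc b 0 i * vs b (Sv K F vv uu (jet j 0))
      + tc b n i * us b (Sv K F vv uu (jet j 0)))
      = jet j 0 (∑ b ∈ Finset.range K, (jet b 0 (ee i) • F 0 b + jet b n (ee i) • F 1 b)) := by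
    rw [map_sum]
    refine Finset.sum_congr rfl fun b hb => ?_
    rw [Finset.mem_range] at hb
    rw [h.vs_Sv F _ b hb, h.us_Sv F _ b hb, map_add, map_smul, map_smul, jet_ee, jet_ee]
    rfl
  rw [h1, hF.decomp hn, jet_ee, tc_zero]
  · by_cases hij : i = j
    · simp [hij]
    · rw [if_neg hij, if_neg (Ne.symm hij)]
  · refine lt_of_le_of_lt degree_le_natDegree ?_
    exact_mod_cast lt_of_le_of_lt (natDegree_ee i) hi

/-- The new operator, written in the two-block basis. -/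
theorem Nop_new {K : ℕ} {n : ℂ} {F : ℕ → ℕ → ℂ[X]} {vv uu : ℕ → X}
    {vs us : ℕ → X →L[ℂ] ℂ} (hK : 1 ≤ K) (hF : Fund K n F) :
    Nop (2 * K) (fun j => Sv K F vv uu (jet j 0)) (Ws K n vs us)
      = (∑ b ∈ Finset.range (K - 1), ((vs b).smulRight (vv (b + 1))
          + (us b).smulRight (uu (b + 1))))
        + ((vs (K - 1)).smulRight (Sv K F vv uu (jet K 0))
          + (us (K - 1)).smulRight (Sv K F vv uu (jet K n))) := by
  have h0 : (∑ b ∈ Finset.range (K - 1), ((vs b).smulRight (vv (b + 1))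
          + (us b).smulRight (uu (b + 1))))
        + ((vs (K - 1)).smulRight (Sv K F vv uu (jet K 0))
          + (us (K - 1)).smulRight (Sv K F vv uu (jet K n)))
      = ∑ b ∈ Finset.range K, ((vs b).smulRight (Sv K F vv uu (jet (b + 1) 0))
          + (us b).smulRight (Sv K F vv uu (jet (b + 1) n))) := by
    obtain ⟨k, rfl⟩ : ∃ k, K = k + 1 := ⟨K - 1, by omega⟩
    rw [Finset.sum_range_succ, Nat.add_sub_cancel]
    congr 1
    refine Finset.sum_congr rfl fun b hb => ?_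
    rw [Finset.mem_range] at hb
    rw [Sv_jet0 hF vv uu (b + 1) (by omega), Sv_jetn hF vv uu (b + 1) (by omega)]
  rw [h0]
  ext x
  rw [Nop_apply]
  simp only [Ws_apply, sum_apply, add_apply, ContinuousLinearMap.smulRight_apply]
  have h1 : ∀ b, Sv K F vv uu (jet (b + 1) 0)
      = ∑ i ∈ Finset.range (2 * K - 1), tc b 0 i • Sv K F vv uu (jet (i + 1) 0) :=
    fun b => (Sv_taylor' hK hF vv uu b 0).symm
  have h2 : ∀ b, Sv K F vv uu (jet (b + 1) n)
      = ∑ i ∈ Finset.range (2 * K - 1), tc b n i • Sv K F vv uu (jet (i + 1) 0) :=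
    fun b => (Sv_taylor' hK hF vv uu b n).symm
  have h3 : ∑ b ∈ Finset.range K, (vs b x • Sv K F vv uu (jet (b + 1) 0)
        + us b x • Sv K F vv uu (jet (b + 1) n))
      = ∑ b ∈ Finset.range K, ∑ i ∈ Finset.range (2 * K - 1),
          (tc b 0 i * vs b x + tc b n i * us b x) • Sv K F vv uu (jet (i + 1) 0) := by
    refine Finset.sum_congr rfl fun b _ => ?_
    conv_lhs => rw [h1 b, h2 b]
    rw [Finset.smul_sum, Finset.smul_sum, ← Finset.sum_add_distrib]
    refine Finset.sum_congr rfl fun i _ => ?_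
    rw [smul_smul, smul_smul, ← add_smul, mul_comm (vs b x), mul_comm (us b x)]
  rw [h3, Finset.sum_comm]
  refine Finset.sum_congr rfl fun i _ => ?_
  rw [Finset.sum_smul]

theorem jet_iterate (i b : ℕ) (t : ℂ) (g : ℂ[X]) :
    jet i t (derivative^[b] g) = jet (i + b) t g := by
  rw [jet_apply, jet_apply, ← Function.iterate_add_apply]

theorem hankel_taylor {L : ℕ} {g : ℂ[X]} (hg : g.natDegree < L) (a b : ℕ) (s t : ℂ) :
    ∑ i ∈ Finset.range L, ∑ j ∈ Finset.range L, jet (i + j) 0 g * (tc a s i * tc b t j)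
      = jet (a + b) (s + t) g := by
  have hd : ∀ i, (derivative^[i] g).natDegree < L := fun i =>
    lt_of_le_of_lt (le_trans (natDegree_iterate_derivative g i) (Nat.sub_le _ _)) hg
  have h1 : ∀ i, ∑ j ∈ Finset.range L, jet (i + j) 0 g * (tc a s i * tc b t j)
      = tc a s i * jet i t (derivative^[b] g) := by
    intro i
    have h2 := taylor_jet L (derivative^[i] g) (hd i) b t 0
    rw [add_zero, jet_iterate, add_comm b i] at h2
    rw [jet_iterate, ← h2, Finset.mul_sum]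
    refine Finset.sum_congr rfl fun j _ => ?_
    rw [jet_iterate, add_comm j i]
    ring
  simp only [h1]
  rw [taylor_jet L (derivative^[b] g) (hd b) a s t, jet_iterate]

/-- The new form, written in the two-block basis. -/
theorem Bop_new {K : ℕ} {n : ℂ} {vs us : ℕ → X →L[ℂ] ℂ}
    {g : ℂ[X]} (hg : g.natDegree < 2 * K) :
    Bop (2 * K) (fun i => jet i 0 g) (Ws K n vs us)
      = ∑ a ∈ Finset.range K, ∑ b ∈ Finset.range K,
        (jet (a + b) 0 g • (vs a).smulRight (vs b)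
          + jet (a + b) n g • ((vs a).smulRight (us b) + (us a).smulRight (vs b))
          + jet (a + b) (2 * n) g • (us a).smulRight (us b)) := by
  ext x y
  rw [Bop_apply]
  simp only [Ws_apply, sum_apply, add_apply, ContinuousLinearMap.smulRight_apply, smul_apply]
  have h1 : ∀ i j, jet (i + j) 0 g
      * ((∑ a ∈ Finset.range K, (tc a 0 i * vs a x + tc a n i * us a x))
        * ∑ b ∈ Finset.range K, (tc b 0 j * vs b y + tc b n j * us b y))
      = ∑ a ∈ Finset.range K, ∑ b ∈ Finset.range K,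
        ((jet (i + j) 0 g * (tc a 0 i * tc b 0 j)) * (vs a x * vs b y)
          + (jet (i + j) 0 g * (tc a 0 i * tc b n j)) * (vs a x * us b y)
          + (jet (i + j) 0 g * (tc a n i * tc b 0 j)) * (us a x * vs b y)
          + (jet (i + j) 0 g * (tc a n i * tc b n j)) * (us a x * us b y)) := by
    intro i j
    rw [Finset.sum_mul_sum, Finset.mul_sum]
    refine Finset.sum_congr rfl fun a _ => ?_
    rw [Finset.mul_sum]
    refine Finset.sum_congr rfl fun b _ => ?_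
    ring
  simp only [h1]
  have h2 : ∀ (f : ℕ → ℕ → ℕ → ℕ → ℂ), ∑ i ∈ Finset.range (2 * K), ∑ j ∈ Finset.range (2 * K),
      ∑ a ∈ Finset.range K, ∑ b ∈ Finset.range K, f i j a b
      = ∑ a ∈ Finset.range K, ∑ b ∈ Finset.range K, ∑ i ∈ Finset.range (2 * K),
        ∑ j ∈ Finset.range (2 * K), f i j a b := by
    intro f
    calc _ = ∑ i ∈ Finset.range (2 * K), ∑ a ∈ Finset.range K, ∑ j ∈ Finset.range (2 * K),
          ∑ b ∈ Finset.range K, f i j a b :=
          Finset.sum_congr rfl fun i _ => Finset.sum_comm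
      _ = ∑ a ∈ Finset.range K, ∑ i ∈ Finset.range (2 * K), ∑ j ∈ Finset.range (2 * K),
          ∑ b ∈ Finset.range K, f i j a b := Finset.sum_comm
      _ = ∑ a ∈ Finset.range K, ∑ i ∈ Finset.range (2 * K), ∑ b ∈ Finset.range K,
          ∑ j ∈ Finset.range (2 * K), f i j a b :=
          Finset.sum_congr rfl fun a _ => Finset.sum_congr rfl fun i _ => Finset.sum_comm
      _ = _ := Finset.sum_congr rfl fun a _ => Finset.sum_comm
  rw [h2]
  refine Finset.sum_congr rfl fun a _ => Finset.sum_congr rfl fun b _ => ?_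
  simp only [Finset.sum_add_distrib, ← Finset.sum_mul]
  rw [hankel_taylor hg, hankel_taylor hg, hankel_taylor hg, hankel_taylor hg]
  rw [add_zero, zero_add, add_zero, ← two_mul]
  simp only [smul_eq_mul]
  ring

theorem exp_new [CompleteSpace X] {K n : ℕ} {F : ℕ → ℕ → ℂ[X]} {vv uu : ℕ → X}
    {vs us : ℕ → X →L[ℂ] ℂ} (hK : 1 ≤ K) (hF : Fund K n F) (hn : (n : ℂ) ≠ 0)
    (h : Bi K vv uu vs us) :
    ((NormedSpace.exp (Nop (2 * K) (fun j => Sv K F vv uu (jet j 0)) (Ws K n vs us))) ^ n) (vv 0)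
      = uu 0 := by
  have hfr := isFrame_new hF hn h
  have h0 : vv 0 = (fun j => Sv K F vv uu (jet j 0)) 0 :=
    (Sv_jet0 hF vv uu 0 (by omega)).symm
  have hpow := Nop_pow_e (show 1 ≤ 2 * K by omega) hfr
  rw [h0, exp_pow_apply _ _ (2 * K) (fun l hl => by rw [hpow l, if_neg (by omega)]) n]
  rw [← Sv_jetn hF vv uu 0 (by omega), ← Sv_taylor hK hF vv uu 0 n]
  refine Finset.sum_congr rfl fun l hl => ?_
  rw [hpow l, if_pos (by simpa using hl)]

theorem exists_Fund (K : ℕ) : ∃ F : ℕ → ℕ → ℕ → ℂ[X], (∀ n : ℕ, 1 ≤ n → Fund K n (F n)) ∧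
    (∀ s < 2, ∀ b < K, Tendsto (fun n : ℕ => jet K 0 (F n s b)) atTop (𝓝 0)) ∧
    (∀ s < 2, ∀ b < K, Tendsto (fun n : ℕ => jet K (n : ℂ) (F n s b)) atTop (𝓝 0)) := by
  obtain ⟨F, hF1, hF2, hF3⟩ := exists_fund 2 K
  refine ⟨F, ?_, ?_, ?_⟩
  · intro n hn
    refine ⟨hF1 n, ?_, ?_, ?_, ?_⟩
    · intro b hb i hi
      have := hF2 n hn 0 (by omega) b hb 0 (by omega) i hi
      simpa using this
    · intro b hb i hi
      have := hF2 n hn 1 (by omega) b hb 0 (by omega) i hi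
      simpa using this
    · intro b hb i hi
      have := hF2 n hn 0 (by omega) b hb 1 (by omega) i hi
      simpa using this
    · intro b hb i hi
      have := hF2 n hn 1 (by omega) b hb 1 (by omega) i hi
      simpa using this
  · intro s hs b hb
    have := hF3 s hs b hb 0 (by omega) K le_rfl
    simpa using this
  · intro s hs b hb
    have := hF3 s hs b hb 1 (by omega) K le_rfl
    simpa using this

theorem tendsto_Sv_zero {K : ℕ} {F : ℕ → ℕ → ℕ → ℂ[X]} (vv uu : ℕ → X)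
    (φ : ℕ → ℂ[X] →ₗ[ℂ] ℂ)
    (h : ∀ s < 2, ∀ b < K, Tendsto (fun n : ℕ => φ n (F n s b)) atTop (𝓝 0)) :
    Tendsto (fun n : ℕ => Sv K (F n) vv uu (φ n)) atTop (𝓝 0) := by
  have h0 : (0 : X) = ∑ b ∈ Finset.range K, ((0 : ℂ) • vv b + (0 : ℂ) • uu b) := by simp
  rw [h0]
  unfold Sv
  refine tendsto_finsetSum _ fun b hb => ?_
  rw [Finset.mem_range] at hb
  exact ((h 0 (by omega) b hb).smul_const _).add ((h 1 (by omega) b hb).smul_const _)

theorem continuousAdd_bil : ContinuousAdd (X →L[ℂ] X →L[ℂ] ℂ) :=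
  (inferInstance : IsTopologicalAddGroup (X →L[ℂ] X →L[ℂ] ℂ)).toContinuousAdd

/-- **Main deformation theorem.** -/
theorem two_block [CompleteSpace X] (K : ℕ) (hK : 1 ≤ K) (vv uu : ℕ → X)
    (vs us : ℕ → X →L[ℂ] ℂ) (h : Bi K vv uu vs us) (K' : ℕ) (hK' : 3 * K' ≤ 2 * K)
    (m : ℕ → ℕ → ℂ) (hm : ∀ c < 3, ∀ l, K' ≤ l → m c l = 0) :
    ∃ s : ℕ → (X →L[ℂ] X) × (X →L[ℂ] X →L[ℂ] ℂ),
      (∀ n : ℕ, 1 ≤ n → s n ∈ SS (vv 0) ∧ ((NormedSpace.exp (s n).1) ^ n) (vv 0) = uu 0) ∧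
      Tendsto s atTop (𝓝 (
        ∑ b ∈ Finset.range (K - 1), ((vs b).smulRight (vv (b + 1))
          + (us b).smulRight (uu (b + 1))),
        ∑ a ∈ Finset.range K, ∑ b ∈ Finset.range K,
        (m 0 (a + b) • (vs a).smulRight (vs b)
          + m 1 (a + b) • ((vs a).smulRight (us b) + (us a).smulRight (vs b))
          + m 2 (a + b) • (us a).smulRight (us b)))) := by
  obtain ⟨F, hF, hF0, hFn⟩ := exists_Fund K
  obtain ⟨g, hg1, hg2⟩ := exists_interp K' m hm
  have hgd : ∀ n, (g n).natDegree < 2 * K := by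
    intro n
    refine natDegree_lt_of (by omega) (lt_of_lt_of_le (hg1 n) ?_)
    exact_mod_cast hK'
  refine ⟨fun n => (Nop (2 * K) (fun j => Sv K (F n) vv uu (jet j 0)) (Ws K n vs us),
    Bop (2 * K) (fun i => jet i 0 (g n)) (Ws K n vs us)), ?_, ?_⟩
  · intro n hn
    have hn0 : (n : ℂ) ≠ 0 := by exact_mod_cast (by omega : n ≠ 0)
    refine ⟨⟨2 * K, fun j => Sv K (F n) vv uu (jet j 0), Ws K n vs us,
      fun i => jet i 0 (g n), by omega, Sv_jet0 (hF n hn) vv uu 0 (by omega),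
      isFrame_new (hF n hn) hn0 h, ?_, rfl⟩, exp_new hK (hF n hn) hn0 h⟩
    intro l hl
    exact jet_of_natDegree_lt _ _ _ (lt_of_lt_of_le (hgd n) hl)
  · refine Tendsto.prodMk_nhds ?_ ?_
    · have h1 : (fun n : ℕ => (∑ b ∈ Finset.range (K - 1), ((vs b).smulRight (vv (b + 1))
          + (us b).smulRight (uu (b + 1))))
          + ((vs (K - 1)).smulRight (Sv K (F n) vv uu (jet K 0))
          + (us (K - 1)).smulRight (Sv K (F n) vv uu (jet K n)))) =ᶠ[atTop]
          (fun n : ℕ => Nop (2 * K) (fun j => Sv K (F n) vv uu (jet j 0)) (Ws K n vs us)) := by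
        filter_upwards [eventually_ge_atTop 1] with n hn
        exact (Nop_new hK (hF n hn)).symm
      refine Tendsto.congr' h1 ?_
      have h2 := tendsto_Sv_zero vv uu (fun _ => jet K 0) hF0
      have h3 := tendsto_Sv_zero vv uu (fun n => jet K (n : ℂ)) hFn
      have h4 := (((ContinuousLinearMap.smulRightL ℂ X X) (vs (K - 1))).continuous.tendsto 0).comp h2
      have h5 := (((ContinuousLinearMap.smulRightL ℂ X X) (us (K - 1))).continuous.tendsto 0).comp h3
      rw [map_zero] at h4 h5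
      have h6 := (h4.add h5).const_add (∑ b ∈ Finset.range (K - 1),
        ((vs b).smulRight (vv (b + 1)) + (us b).smulRight (uu (b + 1))))
      rw [add_zero, add_zero] at h6
      exact h6
    · simp only [Bop_new (hgd _)]
      have := continuousAdd_bil (X := X)
      refine tendsto_finsetSum _ fun a _ => tendsto_finsetSum _ fun b _ => ?_
      have h1 := hg2 0 (by omega) (a + b)
      have h2 := hg2 1 (by omega) (a + b)
      have h3 := hg2 2 (by omega) (a + b)
      simp only [Nat.cast_zero, zero_mul, Nat.cast_one, one_mul, Nat.cast_ofNat] at h1 h2 h3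
      exact ((h1.smul_const _).add (h2.smul_const _)).add (h3.smul_const _)

end

end Pool.MP_dc1b93_an
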